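import Mathlib
import Pool.Agent.Shared.NP.Defs

/-!
Cased straight-line drawings: definitions for MP_b4992a_lc.
A drawing is the list of its edges; an edge is the pair of its end points, which have natural
number coordinates; the vertices are the end points.
-/

set_option autoImplicit false

namespace Pool.Agent.Lib.MP_b4992a_lc

open Pool.Agent.Shared.PolyTime

/-- Points of the grid. -/
abbrev Pt : Type := ℕ × ℕ

/-- Edges, drawn as straight segments from the first point to the second. -/
abbrev Seg : Type := Pt × Pt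

/-- The point of the plane with the given coordinates. -/
def pos (p : Pt) : ℝ × ℝ := ((p.1 : ℝ), (p.2 : ℝ))

/-- The point with parameter `t` on the segment `e`. -/
def pointAt (e : Seg) (t : ℝ) : ℝ × ℝ := (1 - t) • pos e.1 + t • pos e.2

/-- The interior point of `e` with parameter `t` is an interior point of `f`. -/
def CrossAt (e f : Seg) (t : ℝ) : Prop :=
  0 < t ∧ t < 1 ∧ ∃ s : ℝ, 0 < s ∧ s < 1 ∧ pointAt e t = pointAt f s

/-- The vertices of a drawing are the end points of its edges. -/
def IsVertex (D : List Seg) (v : Pt) : Prop := ∃ e ∈ D, v = e.1 ∨ v = e.2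

/-- The graph that is drawn. -/
def graph (D : List Seg) : SimpleGraph {v : Pt // IsVertex D v} :=
  SimpleGraph.fromRel fun u v => (u.1, v.1) ∈ D

/-- A drawing of a simple connected graph in general position. -/
structure Valid (D : List Seg) : Prop where
  noLoop : ∀ e ∈ D, e.1 ≠ e.2
  simple : D.Pairwise fun e f => s(e.1, e.2) ≠ s(f.1, f.2)
  connected : (graph D).Connected
  noThree : ∀ e ∈ D, ∀ f ∈ D, ∀ g ∈ D, e ≠ f → e ≠ g → f ≠ g →
    ∀ t : ℝ, ¬ (CrossAt e f t ∧ CrossAt e g t)
  once : ∀ e ∈ D, ∀ f ∈ D, e ≠ f → ∀ t u : ℝ, CrossAt e f t → CrossAt e f u → t = u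
  adjacent : ∀ e ∈ D, ∀ f ∈ D, e ≠ f → (e.1 = f.1 ∨ e.1 = f.2 ∨ e.2 = f.1 ∨ e.2 = f.2) →
    ∀ t : ℝ, ¬ CrossAt e f t
  noVertex : ∀ e ∈ D, ∀ v : Pt, IsVertex D v → ∀ t : ℝ, 0 < t → t < 1 → pointAt e t ≠ pos v

/-- `top e f = true` says that `e` is the bridge at the crossing of `e` and `f`; a casing makes
exactly one of two crossing edges the bridge. -/
def IsCasing (D : List Seg) (top : Seg → Seg → Bool) : Prop :=
  ∀ e ∈ D, ∀ f ∈ D, e ≠ f → (∃ t : ℝ, CrossAt e f t) → top e f ≠ top f e

/-- The crossings of `e` with `f` and with `g` are consecutive along `e`, in this order, and of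
different types. -/
def IsSwitch (D : List Seg) (top : Seg → Seg → Bool) (e f g : Seg) : Prop :=
  f ∈ D ∧ g ∈ D ∧ f ≠ e ∧ g ≠ e ∧ top e f ≠ top e g ∧
    ∃ t u : ℝ, t < u ∧ CrossAt e f t ∧ CrossAt e g u ∧
      ∀ k ∈ D, k ≠ e → ∀ r : ℝ, CrossAt e k r → ¬ (t < r ∧ r < u)

/-- The number of switches on `e`. -/
noncomputable def switches (D : List Seg) (top : Seg → Seg → Bool) (e : Seg) : ℕ :=
  Set.ncard {p : Seg × Seg | IsSwitch D top e p.1 p.2}

/-- Some casing in the weaving model has at most `K` switches on every edge. -/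
def Weaving (D : List Seg) (K : ℕ) : Prop :=
  ∃ top : Seg → Seg → Bool, IsCasing D top ∧ ∀ e ∈ D, switches D top e ≤ K

/-- Some casing in the stacking model has at most `K` switches on every edge: the linear order
on the edges is given by an injective rank, and the edge of higher rank is the bridge. -/
def Stacking (D : List Seg) (K : ℕ) : Prop :=
  ∃ rank : Seg → ℕ, (∀ e ∈ D, ∀ f ∈ D, rank e = rank f → e = f) ∧
    ∀ e ∈ D, switches D (fun a b => decide (rank b < rank a)) e ≤ K

/-- Instances: a valid drawing and a bound `K`. -/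
def Inst : Type := {p : List Seg × ℕ // Valid p.1}

/-- Encoding of a point (coordinates in unary). -/
def encPt (p : Pt) : List Bool := encPair (encNat p.1) (encNat p.2)

/-- Encoding of an edge. -/
def encSeg (e : Seg) : List Bool := encPair (encPt e.1) (encPt e.2)

/-- Encoding of an instance. -/
def encInst (p : Inst) : List Bool := encPair (encList encSeg p.1.1) (encNat p.1.2)

end Pool.Agent.Lib.MP_b4992a_lc
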