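import Mathlib
import Pool.Agent.Lib.MP_b4992a_lc.Defs

/-! At most one switch means that no three crossings have alternating types. -/

set_option autoImplicit false

namespace Pool.Agent.Lib.MP_b4992a_lc

/-- No three crossings along `e` have alternating types. -/
def NoAlt (D : List Seg) (top : Seg → Seg → Bool) (e : Seg) : Prop :=
  ∀ f ∈ D, ∀ g ∈ D, ∀ h ∈ D, f ≠ e → g ≠ e → h ≠ e → ∀ t u r : ℝ, t < u → u < r →
    CrossAt e f t → CrossAt e g u → CrossAt e h r → top e f = top e g ∨ top e g = top e h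

theorem switch_finite (D : List Seg) (top : Seg → Seg → Bool) (e : Seg) :
    {p : Seg × Seg | IsSwitch D top e p.1 p.2}.Finite := by
  refine ((D.finite_toSet).prod (D.finite_toSet)).subset ?_
  rintro ⟨f, g⟩ h
  exact ⟨h.1, h.2.1⟩

theorem Valid.same {D : List Seg} (hD : Valid D) {e f g : Seg} (he : e ∈ D) (hf : f ∈ D)
    (hg : g ∈ D) (hfe : f ≠ e) (hge : g ≠ e) {t : ℝ} (h1 : CrossAt e f t) (h2 : CrossAt e g t) :
    f = g := by
  by_contra h
  exact hD.noThree e he f hf g hg hfe.symm hge.symm h t ⟨h1, h2⟩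

/-- The set of crossing parameters on `e` is finite. -/
theorem Valid.params_finite {D : List Seg} (hD : Valid D) {e : Seg} (he : e ∈ D) :
    {r : ℝ | ∃ k ∈ D, k ≠ e ∧ CrossAt e k r}.Finite := by
  have : {r : ℝ | ∃ k ∈ D, k ≠ e ∧ CrossAt e k r} =
      ⋃ k ∈ {k | k ∈ D}, {r : ℝ | k ≠ e ∧ CrossAt e k r} := by
    ext r; simp only [Set.mem_ofPred_eq, Set.mem_iUnion, exists_prop]
  rw [this]
  refine (D.finite_toSet).biUnion fun k hk => Set.Subsingleton.finite ?_
  rintro r ⟨h1, h2⟩ r' ⟨-, h3⟩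
  exact hD.once e he k hk h1.symm r r' h2 h3

/-- Between two crossings of different types there is a switch. -/
theorem Valid.exists_switch {D : List Seg} (hD : Valid D) (top : Seg → Seg → Bool) {e : Seg}
    (he : e ∈ D) {f g : Seg} (hf : f ∈ D) (hg : g ∈ D) (hfe : f ≠ e) (hge : g ≠ e) {t u : ℝ}
    (htu : t < u) (h1 : CrossAt e f t) (h2 : CrossAt e g u) (hne : top e f ≠ top e g) :
    ∃ f' g' : Seg, IsSwitch D top e f' g' ∧ ∃ t' : ℝ, t ≤ t' ∧ t' < u ∧ CrossAt e f' t' := by
  classical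
  -- the last crossing before `u` with the type of `f`
  let A : Set ℝ := {r | r < u ∧ ∃ k ∈ D, k ≠ e ∧ CrossAt e k r ∧ top e k = top e f}
  have hA : A.Finite := (hD.params_finite he).subset (by
    rintro r ⟨-, k, a, b, c, -⟩; exact ⟨k, a, b, c⟩)
  obtain ⟨t', ⟨ht'u, f', hf', hf'e, hc', hty⟩, hmax⟩ :=
    Set.exists_max_image A id hA ⟨t, htu, f, hf, hfe, h1, rfl⟩
  -- the first crossing after it
  let B : Set ℝ := {r | t' < r ∧ ∃ k ∈ D, k ≠ e ∧ CrossAt e k r}
  have hB : B.Finite := (hD.params_finite he).subset (by rintro r ⟨-, h⟩; exact h)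
  obtain ⟨u', ⟨htu', g', hg', hg'e, hcg⟩, hmin⟩ :=
    Set.exists_min_image B id hB ⟨u, ht'u, g, hg, hge, h2⟩
  have hu'u : u' ≤ u := hmin u ⟨ht'u, g, hg, hge, h2⟩
  refine ⟨f', g', ⟨hf', hg', hf'e, hg'e, ?_, t', u', htu', hc', hcg, ?_⟩, t',
    hmax t ⟨htu, f, hf, hfe, h1, rfl⟩, ht'u, hc'⟩
  · intro heq
    rcases hu'u.lt_or_eq with hlt | heq'
    · have := hmax u' ⟨hlt, g', hg', hg'e, hcg, by rw [← heq, hty]⟩
      exact absurd htu' (not_lt.2 this)
    · subst heq'
      have := hD.same he hg' hg hg'e hge hcg h2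
      subst this
      exact hne (by rw [← heq, hty])
  · rintro k hk hke r hr ⟨a, b⟩
    exact absurd b (not_lt.2 (hmin r ⟨a, k, hk, hke, hr⟩))

theorem Valid.noAlt_of_le {D : List Seg} (hD : Valid D) {top : Seg → Seg → Bool} {e : Seg}
    (he : e ∈ D) (h : switches D top e ≤ 1) : NoAlt D top e := by
  intro f hf g hg k hk hfe hge hke t u r htu hur c1 c2 c3
  by_contra hn
  push Not at hn
  obtain ⟨f1, g1, s1, t1, -, b1, d1⟩ := hD.exists_switch top he hf hg hfe hge htu c1 c2 hn.1
  obtain ⟨f2, g2, s2, t2, a2, -, d2⟩ := hD.exists_switch top he hg hk hge hke hur c2 c3 hn.2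
  have : (f1, g1) = (f2, g2) := (Set.ncard_le_one_iff (switch_finite D top e)).1 h s1 s2
  simp only [Prod.mk.injEq] at this
  obtain ⟨rfl, -⟩ := this
  have := hD.once e he f1 s1.1 s1.2.2.1.symm t1 t2 d1 d2
  linarith

theorem Valid.le_of_noAlt {D : List Seg} (hD : Valid D) {top : Seg → Seg → Bool} {e : Seg}
    (he : e ∈ D) (h : NoAlt D top e) : switches D top e ≤ 1 := by
  have key : ∀ (f g f' g' : Seg) (t u t' u' : ℝ), f ∈ D → g ∈ D → f ≠ e → g ≠ e →
      top e f ≠ top e g → t < u → CrossAt e f t → CrossAt e g u →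
      (∀ k ∈ D, k ≠ e → ∀ r : ℝ, CrossAt e k r → ¬ (t < r ∧ r < u)) →
      f' ∈ D → g' ∈ D → f' ≠ e → g' ≠ e → top e f' ≠ top e g' → t' < u' → CrossAt e f' t' →
      CrossAt e g' u' → ¬ t < t' := by
    intro f g f' g' t u t' u' hf hg hfe hge hne htu c1 c2 hb hf' hg' hfe' hge' hne' htu' c1' c2' hlt
    have hut : u ≤ t' := by
      by_contra hc
      exact hb f' hf' hfe' t' c1' ⟨hlt, not_le.1 hc⟩
    rcases hut.lt_or_eq with hlt2 | heq
    · rcases h f hf g hg f' hf' hfe hge hfe' t u t' htu hlt2 c1 c2 c1' with h1 | h1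
      · exact hne h1
      · rcases h f hf f' hf' g' hg' hfe hfe' hge' t t' u' hlt htu' c1 c1' c2' with h2 | h2
        · exact hne (h2.trans h1.symm)
        · exact hne' h2
    · subst heq
      have := hD.same he hg hf' hge hfe' c2 c1'
      subst this
      rcases h f hf g hg g' hg' hfe hge hge' t u u' htu htu' c1 c2 c2' with h2 | h2
      · exact hne h2
      · exact hne' h2
  refine (Set.ncard_le_one_iff (switch_finite D top e)).2 ?_
  rintro ⟨f, g⟩ ⟨f', g'⟩ ⟨hf, hg, hfe, hge, hne, t, u, htu, c1, c2, hb⟩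
    ⟨hf', hg', hfe', hge', hne', t', u', htu', c1', c2', hb'⟩
  have n1 := key f g f' g' t u t' u' hf hg hfe hge hne htu c1 c2 hb hf' hg' hfe' hge' hne' htu'
    c1' c2'
  have n2 := key f' g' f g t' u' t u hf' hg' hfe' hge' hne' htu' c1' c2' hb' hf hg hfe hge hne htu
    c1 c2
  have ht : t = t' := le_antisymm (not_lt.1 n2) (not_lt.1 n1)
  subst ht
  have hu : u = u' := by
    apply le_antisymm
    · by_contra hc
      exact hb g' hg' hge' u' c2' ⟨htu', not_le.1 hc⟩
    · by_contra hc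
      exact hb' g hg hge u c2 ⟨htu, not_le.1 hc⟩
  subst hu
  exact Prod.ext (hD.same he hf hf' hfe hfe' c1 c1') (hD.same he hg hg' hge hge' c2 c2')

theorem Stacking.weaving {D : List Seg} {K : ℕ} (h : Stacking D K) : Weaving D K := by
  obtain ⟨rank, hinj, hs⟩ := h
  refine ⟨_, ?_, hs⟩
  intro e he f hf hef _ heq
  have : rank e ≠ rank f := fun h => hef (hinj e he f hf h)
  simp only [decide_eq_decide] at heq
  omega

/-- A height function that separates crossing edges gives a stacking. -/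
theorem Valid.stacking_of_height {D : List Seg} (hD : Valid D) (H : Seg → ℕ)
    (hH : ∀ e ∈ D, ∀ f ∈ D, f ≠ e → ∀ t : ℝ, CrossAt e f t → H e ≠ H f)
    (hA : ∀ e ∈ D, NoAlt D (fun a b => decide (H b < H a)) e) : Stacking D 1 := by
  classical
  have hlt : ∀ e ∈ D, ∀ f ∈ D, H f < H e →
      H f * D.length + D.idxOf f < H e * D.length + D.idxOf e := by
    intro e _ f hf h
    have h1 : D.idxOf f < D.length := List.idxOf_lt_length_iff.2 hf
    have h2 : (H f + 1) * D.length ≤ H e * D.length := Nat.mul_le_mul_right _ h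
    rw [Nat.add_mul, one_mul] at h2
    omega
  refine ⟨fun e => H e * D.length + D.idxOf e, ?_, fun e he => hD.le_of_noAlt he ?_⟩
  · intro e he f hf h
    rcases lt_trichotomy (H e) (H f) with h1 | h1 | h1
    · exact absurd h (hlt f hf e he h1).ne
    · simp only [h1, add_right_inj] at h
      exact (List.idxOf_inj he).1 h
    · exact absurd h (hlt e he f hf h1).ne'
  · have key : ∀ f ∈ D, f ≠ e → ∀ t : ℝ, CrossAt e f t →
        decide (H f * D.length + D.idxOf f < H e * D.length + D.idxOf e) = decide (H f < H e) := by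
      intro f hf hfe t hc
      rw [decide_eq_decide]
      refine ⟨fun h => ?_, hlt e he f hf⟩
      rcases lt_trichotomy (H e) (H f) with h1 | h1 | h1
      · exact absurd h (not_lt.2 (hlt f hf e he h1).le)
      · exact absurd h1 (hH e he f hf hfe t hc)
      · exact h1
    intro f hf g hg k hk hfe hge hke t u r htu hur c1 c2 c3
    simp only [key f hf hfe t c1, key g hg hge u c2, key k hk hke r c3]
    exact hA e he f hf g hg k hk hfe hge hke t u r htu hur c1 c2 c3

end Pool.Agent.Lib.MP_b4992a_lc
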