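import Mathlib
import Pool.Agent.Shared.NP.Tableau
import Pool.Agent.Lib.MP_b4992a_lc.Defs

/-!
The periodic tile and the reduction from 3-SAT.
Types: 0 W, 1 W1, 2 W2, 3 W3, 4 W4, 5 P, 6 P1, 7 P2, 8 P3, 9 P4, 10 Q, 11 Q1, 12 Q2, 13 Q3, 14 Q4, 15 C, 16 Wc1, 17 Wc2, 18 Wc3, 19 Wc4, 20 PL, 21 Pc1, 22 Pc2, 23 Pc3, 24 Pc4, 25 QL, 26 Qc1, 27 Qc2, 28 Qc3, 29 Qc4, 30 F1, 31 F2, 32 E1, 33 E2.
-/

set_option autoImplicit false

namespace Pool.Agent.Lib.MP_b4992a_lc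

open Pool.Agent.Shared.NP

/-- The 34 segments of the cell with index `(0, 0)`. -/
def tab : List Seg :=
  [((32, 7), (232, 7)),
   ((80, 11), (85, 1)),
   ((80, 10), (90, 0)),
   ((82, 4), (88, 10)),
   ((83, 1), (88, 11)),
   ((272, 19), (120, 95)),
   ((264, 27), (254, 22)),
   ((264, 26), (252, 26)),
   ((260, 22), (248, 34)),
   ((258, 20), (248, 35)),
   ((0, 19), (152, 95)),
   ((8, 27), (18, 22)),
   ((8, 26), (20, 26)),
   ((12, 22), (24, 34)),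
   ((14, 20), (24, 35)),
   ((32, 7), (32, 117)),
   ((32, 7), (80, 11)),
   ((32, 7), (80, 10)),
   ((32, 7), (82, 4)),
   ((32, 7), (83, 1)),
   ((232, 7), (272, 19)),
   ((272, 19), (264, 27)),
   ((272, 19), (264, 26)),
   ((272, 19), (260, 22)),
   ((272, 19), (258, 20)),
   ((32, 7), (0, 19)),
   ((0, 19), (8, 27)),
   ((0, 19), (8, 26)),
   ((0, 19), (12, 22)),
   ((0, 19), (14, 20)),
   ((90, 0), (182, 118)),
   ((90, 0), (112, 118)),
   ((90, 0), (160, 118)),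
   ((90, 0), (140, 118))]

/-- The segment of type `a` in the cell `(0, 0)`. -/
def base (a : ℕ) : Seg := tab.getD a ((0, 0), (0, 0))

/-- Units: row, column, type. -/
abbrev U : Type := ℕ × ℕ × ℕ

/-- Translation to the cell in row `i` and column `j`. -/
def shiftP (i j : ℕ) (p : Pt) : Pt := (p.1 + 200 * j, p.2 + 110 * i)

/-- The segment of a unit. -/
def seg (u : U) : Seg := (shiftP u.1 u.2.1 (base u.2.2).1, shiftP u.1 u.2.1 (base u.2.2).2)

/-- The units that are present. -/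
def units (R C : ℕ) (pr : U → Bool) : List U :=
  ((List.range R).flatMap fun i => (List.range C).flatMap fun j =>
    (List.range 34).map fun a => ((i, j, a) : U)).filter pr

/-- The drawing. -/
def draw (R C : ℕ) (pr : U → Bool) : List Seg := (units R C pr).map seg

/-- Crossing lists: entries are type, row offset plus one, column offset plus one. -/
def clTab : List (List (ℕ × ℕ × ℕ)) :=
  [[(1, 1, 1), (2, 1, 1), (3, 1, 1), (4, 1, 1), (31, 1, 1), (33, 1, 1), (32, 1, 1), (30, 1, 1), (31, 0, 1), (33, 0, 1), (32, 0, 1), (30, 0, 1)],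
   [(2, 1, 1), (0, 1, 1), (3, 1, 1), (4, 1, 1)],
   [(1, 1, 1), (0, 1, 1), (3, 1, 1), (4, 1, 1)],
   [(1, 1, 1), (2, 1, 1), (0, 1, 1), (4, 1, 1)],
   [(1, 1, 1), (2, 1, 1), (0, 1, 1), (3, 1, 1)],
   [(6, 1, 1), (7, 1, 1), (8, 1, 1), (9, 1, 1), (10, 1, 2), (15, 1, 2), (30, 1, 1), (32, 1, 1), (10, 1, 1), (33, 1, 1)],
   [(7, 1, 1), (5, 1, 1), (8, 1, 1), (9, 1, 1)],
   [(6, 1, 1), (5, 1, 1), (8, 1, 1), (9, 1, 1)],
   [(6, 1, 1), (7, 1, 1), (5, 1, 1), (9, 1, 1)],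
   [(6, 1, 1), (7, 1, 1), (5, 1, 1), (8, 1, 1)],
   [(11, 1, 1), (12, 1, 1), (13, 1, 1), (14, 1, 1), (15, 1, 1), (5, 1, 0), (31, 1, 1), (33, 1, 1), (5, 1, 1), (32, 1, 1)],
   [(12, 1, 1), (10, 1, 1), (13, 1, 1), (14, 1, 1)],
   [(11, 1, 1), (10, 1, 1), (13, 1, 1), (14, 1, 1)],
   [(11, 1, 1), (12, 1, 1), (10, 1, 1), (14, 1, 1)],
   [(11, 1, 1), (12, 1, 1), (10, 1, 1), (13, 1, 1)],
   [(10, 1, 1), (5, 1, 0)],
   [],
   [],
   [],
   [],
   [],
   [],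
   [],
   [],
   [],
   [],
   [],
   [],
   [],
   [],
   [(0, 1, 1), (5, 1, 1), (0, 2, 1)],
   [(0, 1, 1), (10, 1, 1), (0, 2, 1)],
   [(0, 1, 1), (5, 1, 1), (10, 1, 1), (0, 2, 1)],
   [(0, 1, 1), (10, 1, 1), (5, 1, 1), (0, 2, 1)]]

/-- The crossing list of type `a`, in the order along the segment. -/
def cl (a : ℕ) : List (ℕ × ℕ × ℕ) := clTab.getD a []

/-- The unit `v` is the `k`-th entry of the crossing list of `u`. -/
def Nb (u v : U) (k : ℕ) : Prop :=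
  ∃ x y : ℕ, (cl u.2.2)[k]? = some (v.2.2, x, y) ∧ v.1 + 1 = u.1 + x ∧ v.2.1 + 1 = u.2.1 + y

/-- No three crossings along a unit have alternating types. -/
def UAlt (S : U → Prop) (tp : U → U → Bool) : Prop :=
  ∀ (u v w z : U) (k l n : ℕ), S u → S v → S w → S z → Nb u v k → Nb u w l → Nb u z n →
    k < l → l < n → tp u v = tp u w ∨ tp u w = tp u z

/-- A bound for the variables of the formula. -/
def nv (φ : CNF3) : ℕ := (φ.map fun c => c.1.2 + c.2.1.2 + c.2.2.2).sum + 1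

/-- The literal `(b, v)` occurs in the clause. -/
def hasLit (c : Cl3) (b : Bool) (v : ℕ) : Bool :=
  (c.1.1 == b && c.1.2 == v) || (c.2.1.1 == b && c.2.1.2 == v) || (c.2.2.1 == b && c.2.2.2 == v)

/-- The literal `(b, v)` occurs in the clause of column `j` (column `0` has no clause). -/
def inCl (φ : CNF3) (j : ℕ) (b : Bool) (v : ℕ) : Bool :=
  Nat.blt 0 j && hasLit (φ.getD (j - 1) ((true, 0), (true, 0), (true, 0))) b v

/-- Which units are present. -/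
def pres (φ : CNF3) (u : U) : Bool :=
  Nat.blt u.2.2 30 ||
  (u.2.2 == 30 && Nat.blt 0 u.1 && Nat.ble u.1 (nv φ) && !(inCl φ u.2.1 true (u.1 - 1))) ||
  (u.2.2 == 31 && Nat.blt 0 u.1 && Nat.ble u.1 (nv φ) && !(inCl φ u.2.1 false (u.1 - 1))) ||
  (u.2.2 == 32 && (u.1 == 0 || (u.1 == nv φ + 1 && u.2.1 == 0))) ||
  (u.2.2 == 33 && u.1 == nv φ + 1 && Nat.blt 0 u.2.1)

/-- The reduction. -/
def red (φ : CNF3) : List Seg := draw (nv φ + 2) (φ.length + 1) (pres φ)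

theorem mem_units {R C : ℕ} {pr : U → Bool} {u : U} :
    u ∈ units R C pr ↔ u.1 < R ∧ u.2.1 < C ∧ u.2.2 < 34 ∧ pr u = true := by
  obtain ⟨i, j, a⟩ := u
  simp [units, and_assoc]

theorem mem_draw {R C : ℕ} {pr : U → Bool} {e : Seg} :
    e ∈ draw R C pr ↔ ∃ u ∈ units R C pr, seg u = e := by
  simp [draw]

end Pool.Agent.Lib.MP_b4992a_lc
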