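import Mathlib
import Pool.Agent.Lib.MP_b4992a_lc.Tile

/-! The graph of the drawing is connected. -/

set_option autoImplicit false

namespace Pool.Agent.Lib.MP_b4992a_lc

/-- growing a set of points along segments -/
def grow : List ℕ → List Pt → List Pt
  | [], kn => kn
  | k :: ks, kn =>
    if (base k).1 ∈ kn ∨ (base k).2 ∈ kn then grow ks ((base k).1 :: (base k).2 :: kn)
    else grow ks kn

theorem grow_spec (Q : Pt → Prop) (hQ : ∀ k < 30, Q (base k).1 ↔ Q (base k).2) :
    ∀ ks : List ℕ, (∀ k ∈ ks, k < 30) → ∀ kn : List Pt, (∀ p ∈ kn, Q p) →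
      ∀ p ∈ grow ks kn, Q p := by
  intro ks
  induction ks with
  | nil => intro _ kn h; exact h
  | cons k ks ih =>
    intro hk kn h
    have h1 := hQ k (hk k (by simp))
    unfold grow
    split_ifs with hc
    · refine ih (fun k' hk' => hk k' (by simp [hk'])) _ fun p hp => ?_
      have h2 : Q (base k).1 := by
        rcases hc with hc | hc
        · exact h _ hc
        · exact h1.2 (h _ hc)
      rcases List.mem_cons.1 hp with rfl | hp
      · exact h2
      rcases List.mem_cons.1 hp with rfl | hp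
      · exact h1.1 h2
      · exact h p hp
    · exact ih (fun k' hk' => hk k' (by simp [hk'])) _ h

/-- the points joined to the base point inside a cell -/
def KN : List Pt :=
  grow [0, 15, 16, 17, 18, 19, 20, 25, 21, 22, 23, 24, 26, 27, 28, 29, 2] [(32, 7)]

theorem KN_spec (Q : Pt → Prop) (hQ : ∀ k < 30, Q (base k).1 ↔ Q (base k).2) (h : Q (32, 7)) :
    ∀ p ∈ KN, Q p :=
  grow_spec Q hQ _ (by decide) _ (by simpa using h)

theorem KN_chk : (∀ k < 34, (base k).1 ∈ KN) ∧ (232, 7) ∈ KN ∧ (32, 117) ∈ KN := by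
  decide +kernel

/-- the graph on all grid points -/
def bigGraph (D : List Seg) : SimpleGraph Pt := SimpleGraph.fromRel fun p q => (p, q) ∈ D

theorem reach_edge {D : List Seg} {e : Seg} (he : e ∈ D) : (bigGraph D).Reachable e.1 e.2 := by
  by_cases h : e.1 = e.2
  · rw [h]
  · exact SimpleGraph.Adj.reachable ((SimpleGraph.fromRel_adj _ _ _).2 ⟨h, Or.inl he⟩)

theorem reach_sub {D : List Seg} {p q : Pt} (h : (bigGraph D).Reachable p q) :
    ∀ (hp : IsVertex D p) (hq : IsVertex D q), (graph D).Reachable ⟨p, hp⟩ ⟨q, hq⟩ := by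
  obtain ⟨w⟩ := h
  induction w with
  | nil => intro hp hq; exact SimpleGraph.Reachable.refl _
  | @cons u v z ha _ ih =>
    intro hp hq
    obtain ⟨h1, h2⟩ := (SimpleGraph.fromRel_adj _ _ _).1 ha
    have hv : IsVertex D v := by
      rcases h2 with h2 | h2
      · exact ⟨_, h2, Or.inr rfl⟩
      · exact ⟨_, h2, Or.inl rfl⟩
    refine SimpleGraph.Reachable.trans (SimpleGraph.Adj.reachable ?_) (ih hv hq)
    exact (SimpleGraph.fromRel_adj _ _ _).2 ⟨fun h => h1 (congrArg Subtype.val h), h2⟩

section conn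

variable {R C : ℕ} {pr : U → Bool} (hpr : ∀ u : U, u.2.2 < 30 → pr u = true)

include hpr

theorem tile_conn {i j : ℕ} (hi : i < R) (hj : j < C) :
    ∀ p ∈ KN, (bigGraph (draw R C pr)).Reachable (shiftP i j (32, 7)) (shiftP i j p) := by
  refine KN_spec (fun p => (bigGraph (draw R C pr)).Reachable (shiftP i j (32, 7)) (shiftP i j p))
    (fun k hk => ?_) (SimpleGraph.Reachable.refl _)
  have h : (bigGraph (draw R C pr)).Reachable (shiftP i j (base k).1) (shiftP i j (base k).2) :=
    reach_edge (e := seg (i, j, k))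
      (mem_draw.2 ⟨(i, j, k), mem_units.2 ⟨hi, hj, by dsimp only; omega, hpr _ hk⟩, rfl⟩)
  exact ⟨fun h' => h'.trans h, fun h' => h'.trans h.symm⟩

theorem base_conn : ∀ i j, i < R → j < C →
    (bigGraph (draw R C pr)).Reachable (shiftP 0 0 (32, 7)) (shiftP i j (32, 7)) := by
  obtain ⟨-, k1, k2⟩ := KN_chk
  intro i
  induction i with
  | zero =>
    intro j hi
    induction j with
    | zero => intro _; exact SimpleGraph.Reachable.refl _
    | succ j ih =>
      intro hj
      have h1 := tile_conn hpr hi (show j < C by omega) _ k1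
      have e : shiftP 0 j (232, 7) = shiftP 0 (j + 1) (32, 7) := by
        refine Prod.ext ?_ ?_ <;> (dsimp only [shiftP]; try omega)
      rw [e] at h1
      exact (ih (by omega)).trans h1
  | succ i ih =>
    intro j hi hj
    have h1 := tile_conn hpr (show i < R by omega) hj _ k2
    have e : shiftP i j (32, 117) = shiftP (i + 1) j (32, 7) := by
      refine Prod.ext ?_ ?_ <;> (dsimp only [shiftP]; try omega)
    rw [e] at h1
    exact (ih j (by omega) hj).trans h1

theorem vertex_conn {p : Pt} (hp : IsVertex (draw R C pr) p) :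
    (bigGraph (draw R C pr)).Reachable (shiftP 0 0 (32, 7)) p := by
  obtain ⟨e, he, hp⟩ := hp
  have h1 : (bigGraph (draw R C pr)).Reachable (shiftP 0 0 (32, 7)) e.1 := by
    obtain ⟨⟨i, j, k⟩, hu, rfl⟩ := mem_draw.1 he
    obtain ⟨hi, hj, hk, -⟩ := mem_units.1 hu
    exact (base_conn hpr i j hi hj).trans (tile_conn hpr hi hj _ (KN_chk.1 k hk))
  rcases hp with rfl | rfl
  · exact h1
  · exact h1.trans (reach_edge he)

end conn

theorem draw_connected (R C : ℕ) (hR : 0 < R) (hC : 0 < C) (pr : U → Bool)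
    (hpr : ∀ u : U, u.2.2 < 30 → pr u = true) : (graph (draw R C pr)).Connected := by
  have h0 : IsVertex (draw R C pr) (seg (0, 0, 0)).1 :=
    ⟨_, mem_draw.2 ⟨(0, 0, 0), mem_units.2 ⟨hR, hC, by decide, hpr _ (by decide)⟩, rfl⟩,
      Or.inl rfl⟩
  have : Nonempty {v : Pt // IsVertex (draw R C pr) v} := ⟨⟨_, h0⟩⟩
  exact ⟨fun p q => reach_sub ((vertex_conn hpr p.2).symm.trans (vertex_conn hpr q.2)) p.2 q.2⟩

end Pool.Agent.Lib.MP_b4992a_lc
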