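import Mathlib
import Pool.Agent.Lib.MP_b4992a_lc.Defs

/-! Integer tests for separation and proper crossing of two segments. -/

set_option autoImplicit false

namespace Pool.Agent.Lib.MP_b4992a_lc

/-- Segments with integer end points. -/
abbrev ZS : Type := (ℤ × ℤ) × (ℤ × ℤ)

/-- The point with parameter `t`. -/
def zat (e : ZS) (t : ℝ) : ℝ × ℝ :=
  ((1 - t) * (e.1.1 : ℝ) + t * (e.2.1 : ℝ), (1 - t) * (e.1.2 : ℝ) + t * (e.2.2 : ℝ))

/-- The integer segment of an edge. -/
def toZ (e : Seg) : ZS := (((e.1.1 : ℤ), (e.1.2 : ℤ)), ((e.2.1 : ℤ), (e.2.2 : ℤ)))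

theorem pointAt_eq (e : Seg) (t : ℝ) : pointAt e t = zat (toZ e) t := by
  simp [pointAt, zat, toZ, pos]

theorem pos_eq (v : Pt) (s : ℝ) : pos v = zat (toZ (v, v)) s := by
  simp only [zat, toZ, pos, Int.cast_natCast]
  congr 1 <;> ring

/-- The linear form `a x + b y` separates the two segments. -/
def sepAx (a b : ℤ) (e f : ZS) : Bool :=
  (decide (max (a * e.1.1 + b * e.1.2) (a * e.2.1 + b * e.2.2) ≤
      min (a * f.1.1 + b * f.1.2) (a * f.2.1 + b * f.2.2)) ||
    decide (max (a * f.1.1 + b * f.1.2) (a * f.2.1 + b * f.2.2) ≤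
      min (a * e.1.1 + b * e.1.2) (a * e.2.1 + b * e.2.2))) &&
  !(decide (a * e.1.1 + b * e.1.2 = a * e.2.1 + b * e.2.2) &&
    decide (a * e.2.1 + b * e.2.2 = a * f.1.1 + b * f.1.2) &&
    decide (a * f.1.1 + b * f.1.2 = a * f.2.1 + b * f.2.2))

/-- One of four linear forms separates the two segments. -/
def sepB (e f : ZS) : Bool :=
  sepAx 1 0 e f || sepAx 0 1 e f || sepAx (e.1.2 - e.2.2) (e.2.1 - e.1.1) e f ||
    sepAx (f.1.2 - f.2.2) (f.2.1 - f.1.1) e f

theorem real_sep {p q r s t u : ℝ} (ht : 0 < t) (ht1 : t < 1) (hu : 0 < u) (hu1 : u < 1)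
    (h1 : p ≤ r) (h2 : p ≤ s) (h3 : q ≤ r) (h4 : q ≤ s)
    (h : (1 - t) * p + t * q = (1 - u) * r + u * s) : p = q ∧ q = r ∧ r = s := by
  have a1 : 0 ≤ (1 - t) * (1 - u) * (r - p) := by
    apply mul_nonneg (mul_nonneg (by linarith) (by linarith)); linarith
  have a2 : 0 ≤ (1 - t) * u * (s - p) := by
    apply mul_nonneg (mul_nonneg (by linarith) (by linarith)); linarith
  have a3 : 0 ≤ t * (1 - u) * (r - q) := by
    apply mul_nonneg (mul_nonneg (by linarith) (by linarith)); linarith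
  have a4 : 0 ≤ t * u * (s - q) := by
    apply mul_nonneg (mul_nonneg (by linarith) (by linarith)); linarith
  have hs : (1 - t) * (1 - u) * (r - p) + (1 - t) * u * (s - p) + t * (1 - u) * (r - q) +
      t * u * (s - q) = 0 := by linear_combination -h
  have b1 : (1 - t) * (1 - u) * (r - p) = 0 := by linarith
  have b2 : (1 - t) * u * (s - p) = 0 := by linarith
  have b3 : t * (1 - u) * (r - q) = 0 := by linarith
  have c1 : r - p = 0 := by
    rcases mul_eq_zero.1 b1 with h | h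
    · exact absurd h (mul_pos (by linarith) (by linarith)).ne'
    · exact h
  have c2 : s - p = 0 := by
    rcases mul_eq_zero.1 b2 with h | h
    · exact absurd h (mul_pos (by linarith) (by linarith)).ne'
    · exact h
  have c3 : r - q = 0 := by
    rcases mul_eq_zero.1 b3 with h | h
    · exact absurd h (mul_pos (by linarith) (by linarith)).ne'
    · exact h
  refine ⟨by linarith, by linarith, by linarith⟩

theorem sepAx_sound {a b : ℤ} {e f : ZS} (h : sepAx a b e f = true) {t u : ℝ} (ht : 0 < t)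
    (ht1 : t < 1) (hu : 0 < u) (hu1 : u < 1) : zat e t ≠ zat f u := by
  intro he
  simp only [zat, Prod.mk.injEq] at he
  obtain ⟨hx, hy⟩ := he
  have key : (1 - t) * ((a * e.1.1 + b * e.1.2 : ℤ) : ℝ) + t * ((a * e.2.1 + b * e.2.2 : ℤ) : ℝ) =
      (1 - u) * ((a * f.1.1 + b * f.1.2 : ℤ) : ℝ) + u * ((a * f.2.1 + b * f.2.2 : ℤ) : ℝ) := by
    push_cast
    linear_combination (a : ℝ) * hx + (b : ℝ) * hy
  simp only [sepAx, Bool.and_eq_true, Bool.or_eq_true, decide_eq_true_eq, Bool.not_eq_true',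
    max_le_iff, le_min_iff] at h
  obtain ⟨h1, h2⟩ := h
  generalize a * e.1.1 + b * e.1.2 = p at *
  generalize a * e.2.1 + b * e.2.2 = q at *
  generalize a * f.1.1 + b * f.1.2 = r at *
  generalize a * f.2.1 + b * f.2.2 = s at *
  have hall : p = q ∧ q = r ∧ r = s := by
    rcases h1 with ⟨⟨c1, c3⟩, c2, c4⟩ | ⟨⟨c1, c3⟩, c2, c4⟩
    · have := real_sep ht ht1 hu hu1 (p := p) (q := q) (r := r) (s := s) (by exact_mod_cast c1)
        (by exact_mod_cast c2) (by exact_mod_cast c3) (by exact_mod_cast c4) key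
      exact_mod_cast this
    · have := real_sep hu hu1 ht ht1 (p := r) (q := s) (r := p) (s := q) (by exact_mod_cast c1)
        (by exact_mod_cast c2) (by exact_mod_cast c3) (by exact_mod_cast c4) key.symm
      have h3 : r = s ∧ s = p ∧ p = q := by exact_mod_cast this
      omega
  obtain ⟨e1, e2, e3⟩ := hall
  simp [e1, e2, e3] at h2

theorem sepB_sound {e f : ZS} (h : sepB e f = true) {t u : ℝ} (ht : 0 < t)
    (ht1 : t < 1) (hu : 0 < u) (hu1 : u < 1) : zat e t ≠ zat f u := by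
  simp only [sepB, Bool.or_eq_true] at h
  rcases h with ((h | h) | h) | h <;> exact sepAx_sound h ht ht1 hu hu1

/-- The determinant of the two directions. -/
def dd (e f : ZS) : ℤ := (e.2.1 - e.1.1) * (f.2.2 - f.1.2) - (e.2.2 - e.1.2) * (f.2.1 - f.1.1)

/-- Numerator of the parameter on `e`. -/
def tn (e f : ZS) : ℤ := (f.1.1 - e.1.1) * (f.2.2 - f.1.2) - (f.1.2 - e.1.2) * (f.2.1 - f.1.1)

/-- Numerator of the parameter on `f`. -/
def sn (e f : ZS) : ℤ := (f.1.1 - e.1.1) * (e.2.2 - e.1.2) - (f.1.2 - e.1.2) * (e.2.1 - e.1.1)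

/-- Proper crossing. -/
def crossB (e f : ZS) : Bool :=
  decide (0 < tn e f * dd e f) && decide (tn e f * dd e f < dd e f * dd e f) &&
    decide (0 < sn e f * dd e f) && decide (sn e f * dd e f < dd e f * dd e f)

/-- The parameter on `e` of the crossing with `f`. -/
noncomputable def tau (e f : ZS) : ℝ := (tn e f : ℝ) / (dd e f : ℝ)

theorem tau_unique {e f : ZS} (hd : dd e f ≠ 0) {t u : ℝ} (h : zat e t = zat f u) :
    t = tau e f := by
  have hd' : (dd e f : ℝ) ≠ 0 := by exact_mod_cast hd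
  simp only [zat, Prod.mk.injEq] at h
  obtain ⟨hx, hy⟩ := h
  rw [tau, eq_div_iff hd']
  simp only [dd, tn]
  push_cast
  linear_combination ((f.2.2 : ℝ) - f.1.2) * hx - ((f.2.1 : ℝ) - f.1.1) * hy

theorem frac_mem {n d : ℤ} (h1 : 0 < n * d) (h2 : n * d < d * d) :
    0 < (n : ℝ) / d ∧ (n : ℝ) / d < 1 := by
  have hd : d ≠ 0 := by rintro rfl; simp at h1
  have hd' : (d : ℝ) ≠ 0 := by exact_mod_cast hd
  have hp : (0 : ℝ) < (d : ℝ) * d := mul_self_pos.2 hd'
  have e : (n : ℝ) / d = (n * d) / (d * d) := by field_simp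
  rw [e]
  refine ⟨div_pos (by exact_mod_cast h1) hp, (div_lt_one hp).2 (by exact_mod_cast h2)⟩

theorem crossB_dd {e f : ZS} (h : crossB e f = true) : dd e f ≠ 0 := by
  simp only [crossB, Bool.and_eq_true, decide_eq_true_eq] at h
  intro h0
  simp [h0] at h

theorem crossB_meet {e f : ZS} (h : crossB e f = true) :
    0 < tau e f ∧ tau e f < 1 ∧ ∃ u : ℝ, 0 < u ∧ u < 1 ∧ zat e (tau e f) = zat f u := by
  have hd := crossB_dd h
  have hd' : (dd e f : ℝ) ≠ 0 := by exact_mod_cast hd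
  simp only [crossB, Bool.and_eq_true, decide_eq_true_eq] at h
  obtain ⟨⟨⟨h1, h2⟩, h3⟩, h4⟩ := h
  refine ⟨(frac_mem h1 h2).1, (frac_mem h1 h2).2, (sn e f : ℝ) / (dd e f : ℝ), (frac_mem h3 h4).1,
    (frac_mem h3 h4).2, ?_⟩
  simp only [zat, tau, Prod.mk.injEq]
  constructor
  · field_simp
    simp only [dd, tn, sn]
    push_cast
    ring
  · field_simp
    simp only [dd, tn, sn]
    push_cast
    ring

/-- The crossing with `f` comes before the crossing with `g` along `e`. -/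
def ltB (e f g : ZS) : Bool :=
  decide (tn e f * dd e f * (dd e g * dd e g) < tn e g * dd e g * (dd e f * dd e f))

theorem ltB_iff {e f g : ZS} (hf : dd e f ≠ 0) (hg : dd e g ≠ 0) :
    ltB e f g = true ↔ tau e f < tau e g := by
  have hf' : (dd e f : ℝ) ≠ 0 := by exact_mod_cast hf
  have hg' : (dd e g : ℝ) ≠ 0 := by exact_mod_cast hg
  have p1 : (0 : ℝ) < (dd e f : ℝ) * dd e f := mul_self_pos.2 hf'
  have p2 : (0 : ℝ) < (dd e g : ℝ) * dd e g := mul_self_pos.2 hg'
  have e1 : tau e f = (tn e f * dd e f) / (dd e f * dd e f) := by rw [tau]; field_simp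
  have e2 : tau e g = (tn e g * dd e g) / (dd e g * dd e g) := by rw [tau]; field_simp
  rw [e1, e2, div_lt_div_iff₀ p1 p2, ltB, decide_eq_true_eq]
  exact_mod_cast Iff.rfl

end Pool.Agent.Lib.MP_b4992a_lc
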