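import Mathlib
import Pool.Agent.Lib.MP_b4992a_lc.Geo
import Pool.Agent.Lib.MP_b4992a_lc.Tile

/-! The crossings of the periodic drawing are those of the crossing lists. -/

set_option autoImplicit false

namespace Pool.Agent.Lib.MP_b4992a_lc

/-- The segment of type `b`, moved by `di` rows and `dj` columns. -/
def zb (b : ℕ) (di dj : ℤ) : ZS :=
  ((((base b).1.1 : ℤ) + 200 * dj, ((base b).1.2 : ℤ) + 110 * di),
    (((base b).2.1 : ℤ) + 200 * dj, ((base b).2.2 : ℤ) + 110 * di))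

/-- The segment of an entry of a crossing list. -/
def ent (p : ℕ × ℕ × ℕ) : ZS := zb p.1 ((p.2.1 : ℤ) - 1) ((p.2.2 : ℤ) - 1)

/-- The unit `v` seen from the cell of `u`. -/
def rel (u v : U) : ZS := zb v.2.2 ((v.1 : ℤ) - u.1) ((v.2.1 : ℤ) - u.2.1)

/-- No common end point. -/
def noShare (e f : ZS) : Bool := e.1 != f.1 && e.1 != f.2 && e.2 != f.1 && e.2 != f.2

/-- Different as unordered pairs. -/
def notSame (e f : ZS) : Bool := !((e.1 == f.1 && e.2 == f.2) || (e.1 == f.2 && e.2 == f.1))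

/-- The test for one pair of types and one offset. -/
def chk (a : ℕ) (p : ℕ × ℕ × ℕ) : Bool :=
  sepB (zb a 0 0) ((ent p).1, (ent p).1) && sepB (zb a 0 0) ((ent p).2, (ent p).2) &&
    (bif (cl a).contains p then crossB (zb a 0 0) (ent p) && noShare (zb a 0 0) (ent p)
      else (p == (a, 1, 1)) || (sepB (zb a 0 0) (ent p) && notSame (zb a 0 0) (ent p)))

theorem chk_all : ((List.range 34).all fun a => (List.range 34).all fun b =>
    (List.range 3).all fun x => (List.range 3).all fun y => chk a (b, x, y)) = true := by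
  decide +kernel

theorem chk_of {a b x y : ℕ} (ha : a < 34) (hb : b < 34) (hx : x < 3) (hy : y < 3) :
    chk a (b, x, y) = true := by
  have h := chk_all
  simp only [List.all_eq_true, List.mem_range] at h
  exact h a ha b hb x hx y hy

theorem cl_bound : ∀ a < 34, ∀ p ∈ cl a, p.1 < 34 ∧ p.2.1 < 3 ∧ p.2.2 < 3 ∧ p ≠ (a, 1, 1) := by
  decide +kernel

theorem cl_sorted : ∀ a < 34, (cl a).Pairwise fun p q => ltB (zb a 0 0) (ent p) (ent q) = true := by
  decide +kernel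

theorem base_bound : ∀ a < 34, (base a).1.1 < 400 ∧ (base a).2.1 < 400 ∧ (base a).1.2 < 220 ∧
    (base a).2.2 < 220 ∧ (base a).1 ≠ (base a).2 := by
  decide +kernel

theorem zat_seg (u v : U) (t : ℝ) :
    zat (toZ (seg v)) t = zat (rel u v) t + ((200 * u.2.1 : ℝ), (110 * u.1 : ℝ)) := by
  simp only [zat, toZ, seg, shiftP, rel, zb, Prod.mk_add_mk, Prod.mk.injEq]
  push_cast
  constructor <;> ring

theorem rel_self (u : U) : rel u u = zb u.2.2 0 0 := by simp [rel]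

theorem meet_iff (u v : U) (t s : ℝ) :
    pointAt (seg u) t = pointAt (seg v) s ↔ zat (zb u.2.2 0 0) t = zat (rel u v) s := by
  rw [pointAt_eq, pointAt_eq, zat_seg u u, zat_seg u v, rel_self, add_left_inj]

/-- The two units lie in neighbouring cells. -/
def Near (u v : U) (x y : ℕ) : Prop := v.1 + 1 = u.1 + x ∧ v.2.1 + 1 = u.2.1 + y

theorem rel_near {u v : U} {x y : ℕ} (h : Near u v x y) : rel u v = ent (v.2.2, x, y) := by
  obtain ⟨h1, h2⟩ := h
  simp only [rel, ent]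
  congr 1 <;> omega

theorem near_or_far (u v : U) : (∃ x y, x < 3 ∧ y < 3 ∧ Near u v x y) ∨
    (v.1 + 2 ≤ u.1 ∨ u.1 + 2 ≤ v.1 ∨ v.2.1 + 2 ≤ u.2.1 ∨ u.2.1 + 2 ≤ v.2.1) := by
  by_cases h : v.1 + 2 ≤ u.1 ∨ u.1 + 2 ≤ v.1 ∨ v.2.1 + 2 ≤ u.2.1 ∨ u.2.1 + 2 ≤ v.2.1
  · exact Or.inr h
  · exact Or.inl ⟨v.1 + 1 - u.1, v.2.1 + 1 - u.2.1, by omega, by omega, by
      constructor <;> omega⟩

theorem sepB_of_lt {e f : ZS}
    (h : max e.1.1 e.2.1 < min f.1.1 f.2.1 ∨ max f.1.1 f.2.1 < min e.1.1 e.2.1 ∨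
      max e.1.2 e.2.2 < min f.1.2 f.2.2 ∨ max f.1.2 f.2.2 < min e.1.2 e.2.2) :
    sepB e f = true := by
  simp only [sepB, sepAx, Bool.or_eq_true, Bool.and_eq_true, decide_eq_true_eq, one_mul, zero_mul,
    add_zero, zero_add, Bool.not_eq_true', Bool.and_eq_false_iff, decide_eq_false_iff_not]
  rcases h with h | h | h | h
  · exact Or.inl (Or.inl (Or.inl (by omega)))
  · exact Or.inl (Or.inl (Or.inl (by omega)))
  · exact Or.inl (Or.inl (Or.inr (by omega)))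
  · exact Or.inl (Or.inl (Or.inr (by omega)))

theorem far_facts {u v : U} (hu : u.2.2 < 34) (hv : v.2.2 < 34)
    (h : v.1 + 2 ≤ u.1 ∨ u.1 + 2 ≤ v.1 ∨ v.2.1 + 2 ≤ u.2.1 ∨ u.2.1 + 2 ≤ v.2.1) :
    sepB (zb u.2.2 0 0) (rel u v) = true ∧
      sepB (zb u.2.2 0 0) ((rel u v).1, (rel u v).1) = true ∧
      sepB (zb u.2.2 0 0) ((rel u v).2, (rel u v).2) = true ∧
      notSame (zb u.2.2 0 0) (rel u v) = true := by
  obtain ⟨a1, a2, a3, a4, -⟩ := base_bound _ hu
  obtain ⟨b1, b2, b3, b4, -⟩ := base_bound _ hv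
  refine ⟨sepB_of_lt ?_, sepB_of_lt ?_, sepB_of_lt ?_, ?_⟩
  · simp only [rel, zb]; omega
  · simp only [rel, zb]; omega
  · simp only [rel, zb]; omega
  · simp only [notSame, rel, zb, Bool.not_eq_true', Bool.or_eq_false_iff, Bool.and_eq_false_iff,
      beq_eq_false_iff_ne, ne_eq, Prod.mk.injEq]
    omega

theorem Nb.near {u v : U} {k : ℕ} (hu : u.2.2 < 34) (h : Nb u v k) :
    ∃ x y, x < 3 ∧ y < 3 ∧ Near u v x y ∧ (cl u.2.2)[k]? = some (v.2.2, x, y) ∧
      v.2.2 < 34 ∧ u ≠ v := by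
  obtain ⟨x, y, h1, h2, h3⟩ := h
  obtain ⟨c1, c2, c3, c4⟩ := cl_bound _ hu _ (List.mem_of_getElem? h1)
  refine ⟨x, y, c2, c3, ⟨h2, h3⟩, h1, c1, ?_⟩
  rintro rfl
  apply c4
  have e1 : x = 1 := by omega
  have e2 : y = 1 := by omega
  rw [e1, e2]

theorem Nb.ne {u v : U} {k : ℕ} (hu : u.2.2 < 34) (h : Nb u v k) : u ≠ v := by
  obtain ⟨x, y, -, -, -, -, -, h⟩ := h.near hu
  exact h

theorem Nb.cross {u v : U} {k : ℕ} (hu : u.2.2 < 34) (h : Nb u v k) :
    crossB (zb u.2.2 0 0) (rel u v) = true ∧ noShare (zb u.2.2 0 0) (rel u v) = true := by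
  obtain ⟨x, y, hx, hy, hn, h1, hv, -⟩ := h.near hu
  have hc := chk_of hu hv hx hy
  have hm : (cl u.2.2).contains (v.2.2, x, y) = true :=
    List.contains_iff_mem.2 (List.mem_of_getElem? h1)
  rw [rel_near hn]
  simp only [chk, hm, cond_true, Bool.and_eq_true] at hc
  exact hc.2

theorem not_nb {u v : U} (hu : u.2.2 < 34) (hv : v.2.2 < 34) (huv : u ≠ v) (h : ∀ k, ¬ Nb u v k) :
    sepB (zb u.2.2 0 0) (rel u v) = true ∧ notSame (zb u.2.2 0 0) (rel u v) = true := by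
  rcases near_or_far u v with ⟨x, y, hx, hy, hn⟩ | hf
  · have hc := chk_of hu hv hx hy
    have hm : (cl u.2.2).contains (v.2.2, x, y) = false := by
      rw [Bool.eq_false_iff]
      intro hm
      obtain ⟨k, hk⟩ := List.getElem?_of_mem (List.contains_iff_mem.1 hm)
      exact h k ⟨x, y, hk, hn.1, hn.2⟩
    rw [rel_near hn]
    simp only [chk, hm, cond_false, Bool.and_eq_true, Bool.or_eq_true, beq_iff_eq,
      Prod.mk.injEq] at hc
    rcases hc.2 with ⟨e1, e2, e3⟩ | h2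
    · exfalso
      apply huv
      obtain ⟨n1, n2⟩ := hn
      ext <;> omega
    · exact h2
  · exact ⟨(far_facts hu hv hf).1, (far_facts hu hv hf).2.2.2⟩

/-- The parameter on `u` of the crossing with `v`. -/
noncomputable def par (u v : U) : ℝ := tau (zb u.2.2 0 0) (rel u v)

theorem cross_iff {u v : U} (hu : u.2.2 < 34) (hv : v.2.2 < 34) (huv : u ≠ v) (t : ℝ) :
    CrossAt (seg u) (seg v) t ↔ (∃ k, Nb u v k) ∧ t = par u v := by
  constructor
  · rintro ⟨h0, h1, s, s0, s1, hm⟩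
    rw [meet_iff] at hm
    by_cases h : ∃ k, Nb u v k
    · obtain ⟨k, hk⟩ := h
      exact ⟨⟨k, hk⟩, tau_unique (crossB_dd (hk.cross hu).1) hm⟩
    · exact absurd hm (sepB_sound (not_nb hu hv huv fun k hk => h ⟨k, hk⟩).1 h0 h1 s0 s1)
  · rintro ⟨⟨k, hk⟩, rfl⟩
    obtain ⟨h0, h1, s, s0, s1, hm⟩ := crossB_meet (hk.cross hu).1
    exact ⟨h0, h1, s, s0, s1, (meet_iff u v _ _).2 hm⟩

theorem par_lt {u v w : U} {k l : ℕ} (hu : u.2.2 < 34) (hv : Nb u v k) (hw : Nb u w l)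
    (hkl : k < l) : par u v < par u w := by
  have c1 := crossB_dd (hv.cross hu).1
  have c2 := crossB_dd (hw.cross hu).1
  obtain ⟨x, y, -, -, hn, h1, -, -⟩ := hv.near hu
  obtain ⟨x', y', -, -, hn', h1', -, -⟩ := hw.near hu
  rw [par, par, ← ltB_iff c1 c2, rel_near hn, rel_near hn']
  obtain ⟨hk, e1⟩ := List.getElem?_eq_some_iff.1 h1
  obtain ⟨hl, e2⟩ := List.getElem?_eq_some_iff.1 h1'
  have := List.pairwise_iff_getElem.1 (cl_sorted _ hu) k l hk hl hkl
  rwa [e1, e2] at this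

theorem Nb.unique {u v w : U} {k : ℕ} (hv : Nb u v k) (hw : Nb u w k) : v = w := by
  obtain ⟨x, y, h1, h2, h3⟩ := hv
  obtain ⟨x', y', h1', h2', h3'⟩ := hw
  rw [h1] at h1'
  simp only [Option.some.injEq, Prod.mk.injEq] at h1'
  ext <;> omega

theorem toZ_rel (u v : U) : toZ (seg v) =
    (((rel u v).1.1 + 200 * u.2.1, (rel u v).1.2 + 110 * u.1),
      ((rel u v).2.1 + 200 * u.2.1, (rel u v).2.2 + 110 * u.1)) := by
  simp only [toZ, seg, shiftP, rel, zb, Prod.mk.injEq]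
  push_cast
  refine ⟨⟨?_, ?_⟩, ?_, ?_⟩ <;> ring

theorem ends_iff (u v : U) :
    ((seg u).1 = (seg v).1 ↔ (zb u.2.2 0 0).1 = (rel u v).1) ∧
    ((seg u).1 = (seg v).2 ↔ (zb u.2.2 0 0).1 = (rel u v).2) ∧
    ((seg u).2 = (seg v).1 ↔ (zb u.2.2 0 0).2 = (rel u v).1) ∧
    ((seg u).2 = (seg v).2 ↔ (zb u.2.2 0 0).2 = (rel u v).2) := by
  simp only [seg, shiftP, rel, zb, Prod.mk.injEq]
  refine ⟨?_, ?_, ?_, ?_⟩ <;> omega

theorem Nb.noShare {u v : U} {k : ℕ} (hu : u.2.2 < 34) (h : Nb u v k) :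
    ¬ ((seg u).1 = (seg v).1 ∨ (seg u).1 = (seg v).2 ∨ (seg u).2 = (seg v).1 ∨
      (seg u).2 = (seg v).2) := by
  have h1 := (h.cross hu).2
  obtain ⟨e1, e2, e3, e4⟩ := ends_iff u v
  simp only [Pool.Agent.Lib.MP_b4992a_lc.noShare, Bool.and_eq_true, bne_iff_ne, ne_eq] at h1
  rw [e1, e2, e3, e4]
  tauto

theorem seg_sym_ne {u v : U} (hu : u.2.2 < 34) (hv : v.2.2 < 34) (huv : u ≠ v) :
    s((seg u).1, (seg u).2) ≠ s((seg v).1, (seg v).2) := by
  intro he
  rw [Sym2.eq_iff] at he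
  by_cases h : ∃ k, Nb u v k
  · obtain ⟨k, hk⟩ := h
    exact hk.noShare hu (by tauto)
  · have h1 := (not_nb hu hv huv fun k hk => h ⟨k, hk⟩).2
    obtain ⟨e1, e2, e3, e4⟩ := ends_iff u v
    rw [e1, e2, e3, e4] at he
    simp only [notSame, Bool.not_eq_true', Bool.or_eq_false_iff, Bool.and_eq_false_iff,
      beq_eq_false_iff_ne, ne_eq] at h1
    tauto

theorem seg_inj {u v : U} (hu : u.2.2 < 34) (hv : v.2.2 < 34) (h : seg u = seg v) : u = v := by
  by_contra huv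
  exact seg_sym_ne hu hv huv (by rw [h])

theorem seg_noLoop {u : U} (hu : u.2.2 < 34) : (seg u).1 ≠ (seg u).2 := by
  have h := (base_bound _ hu).2.2.2.2
  intro he
  apply h
  simp only [seg, shiftP, Prod.mk.injEq] at he
  ext <;> omega

theorem vertex_sep {u v : U} (hu : u.2.2 < 34) (hv : v.2.2 < 34) :
    sepB (zb u.2.2 0 0) ((rel u v).1, (rel u v).1) = true ∧
      sepB (zb u.2.2 0 0) ((rel u v).2, (rel u v).2) = true := by
  rcases near_or_far u v with ⟨x, y, hx, hy, hn⟩ | hf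
  · have hc := chk_of hu hv hx hy
    rw [rel_near hn]
    simp only [chk, Bool.and_eq_true] at hc
    exact hc.1
  · exact ⟨(far_facts hu hv hf).2.1, (far_facts hu hv hf).2.2.1⟩

theorem seg_noVertex {u v : U} (hu : u.2.2 < 34) (hv : v.2.2 < 34) {t : ℝ} (h0 : 0 < t)
    (h1 : t < 1) : pointAt (seg u) t ≠ pos (seg v).1 ∧ pointAt (seg u) t ≠ pos (seg v).2 := by
  obtain ⟨s1, s2⟩ := vertex_sep hu hv
  have n1 := sepB_sound s1 h0 h1 (u := 1 / 2) (by norm_num) (by norm_num)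
  have n2 := sepB_sound s2 h0 h1 (u := 1 / 2) (by norm_num) (by norm_num)
  rw [pointAt_eq, zat_seg u u, rel_self]
  constructor
  · intro he
    apply n1
    simp only [zat, pos, seg, shiftP, rel, zb, Prod.mk_add_mk, Prod.mk.injEq] at he ⊢
    push_cast at he ⊢
    constructor <;> linarith [he.1, he.2]
  · intro he
    apply n2
    simp only [zat, pos, seg, shiftP, rel, zb, Prod.mk_add_mk, Prod.mk.injEq] at he ⊢
    push_cast at he ⊢
    constructor <;> linarith [he.1, he.2]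

end Pool.Agent.Lib.MP_b4992a_lc
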