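import Mathlib
import Pool.Agent.Lib.MP_b4992a_lc.TileGeo
import Pool.Agent.Lib.MP_b4992a_lc.Alt
import Pool.Agent.Lib.MP_b4992a_lc.Conn

/-! The drawing is valid; switches in terms of units. -/

set_option autoImplicit false

namespace Pool.Agent.Lib.MP_b4992a_lc

theorem units_nodup (R C : ℕ) (pr : U → Bool) : (units R C pr).Nodup := by
  have : ((List.range R).flatMap fun i => (List.range C).flatMap fun j =>
      (List.range 34).map fun a => ((i, j, a) : U)) =
      List.range R ×ˢ (List.range C ×ˢ List.range 34) := by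
    simp only [SProd.sprod, List.product, List.map_flatMap, List.map_map]
    rfl
  rw [units, this]
  exact (List.nodup_range.product (List.nodup_range.product List.nodup_range)).filter _

theorem lt34 {R C : ℕ} {pr : U → Bool} {u : U} (h : u ∈ units R C pr) : u.2.2 < 34 :=
  (mem_units.1 h).2.2.1

theorem nb_lt_of_par {u v w : U} {k l : ℕ} (hu : u.2.2 < 34) (hv : Nb u v k) (hw : Nb u w l)
    (h : par u v < par u w) : k < l := by
  rcases lt_trichotomy k l with h1 | h1 | h1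
  · exact h1
  · subst h1
    rw [hv.unique hw] at h
    exact absurd h (lt_irrefl _)
  · exact absurd (par_lt hu hw hv h1) (not_lt.2 h.le)

theorem draw_valid (R C : ℕ) (hR : 0 < R) (hC : 0 < C) (pr : U → Bool)
    (hpr : ∀ u : U, u.2.2 < 30 → pr u = true) : Valid (draw R C pr) where
  noLoop := by
    intro e he
    obtain ⟨u, hu, rfl⟩ := mem_draw.1 he
    exact seg_noLoop (lt34 hu)
  simple := by
    rw [draw, List.pairwise_map]
    exact (units_nodup R C pr).imp_of_mem fun hu hv huv => seg_sym_ne (lt34 hu) (lt34 hv) huv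
  connected := draw_connected R C hR hC pr hpr
  noThree := by
    rintro e he f hf g hg hef heg hfg t ⟨h1, h2⟩
    obtain ⟨u, hu, rfl⟩ := mem_draw.1 he
    obtain ⟨v, hv, rfl⟩ := mem_draw.1 hf
    obtain ⟨w, hw, rfl⟩ := mem_draw.1 hg
    obtain ⟨⟨k, hk⟩, e1⟩ := (cross_iff (lt34 hu) (lt34 hv) (fun h => hef (by rw [h])) t).1 h1
    obtain ⟨⟨l, hl⟩, e2⟩ := (cross_iff (lt34 hu) (lt34 hw) (fun h => heg (by rw [h])) t).1 h2
    rcases lt_trichotomy k l with h | h | h
    · have := par_lt (lt34 hu) hk hl h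
      linarith
    · subst h
      exact hfg (by rw [hk.unique hl])
    · have := par_lt (lt34 hu) hl hk h
      linarith
  once := by
    intro e he f hf hef t s h1 h2
    obtain ⟨u, hu, rfl⟩ := mem_draw.1 he
    obtain ⟨v, hv, rfl⟩ := mem_draw.1 hf
    have huv : u ≠ v := fun h => hef (by rw [h])
    rw [((cross_iff (lt34 hu) (lt34 hv) huv t).1 h1).2, ((cross_iff (lt34 hu) (lt34 hv) huv s).1 h2).2]
  adjacent := by
    intro e he f hf hef hs t h1
    obtain ⟨u, hu, rfl⟩ := mem_draw.1 he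
    obtain ⟨v, hv, rfl⟩ := mem_draw.1 hf
    obtain ⟨⟨k, hk⟩, -⟩ := (cross_iff (lt34 hu) (lt34 hv) (fun h => hef (by rw [h])) t).1 h1
    exact hk.noShare (lt34 hu) hs
  noVertex := by
    rintro e he p ⟨f, hf, hp⟩ t h0 h1
    obtain ⟨u, hu, rfl⟩ := mem_draw.1 he
    obtain ⟨v, hv, rfl⟩ := mem_draw.1 hf
    rcases hp with rfl | rfl
    · exact (seg_noVertex (lt34 hu) (lt34 hv) h0 h1).1
    · exact (seg_noVertex (lt34 hu) (lt34 hv) h0 h1).2

theorem Nb.crossAt {R C : ℕ} {pr : U → Bool} {u v : U} {k : ℕ} (hu : u ∈ units R C pr)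
    (hv : v ∈ units R C pr) (h : Nb u v k) :
    seg v ≠ seg u ∧ CrossAt (seg u) (seg v) (par u v) :=
  ⟨fun he => h.ne (lt34 hu) (seg_inj (lt34 hv) (lt34 hu) he).symm,
    (cross_iff (lt34 hu) (lt34 hv) (h.ne (lt34 hu)) _).2 ⟨⟨k, h⟩, rfl⟩⟩

theorem noAlt_iff {R C : ℕ} {pr : U → Bool} (top : Seg → Seg → Bool) :
    (∀ e ∈ draw R C pr, NoAlt (draw R C pr) top e) ↔
      UAlt (· ∈ units R C pr) (fun u v => top (seg u) (seg v)) := by
  constructor
  · intro h u v w z k l n hu hv hw hz nv nw nz hkl hln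
    have m : ∀ x ∈ units R C pr, seg x ∈ draw R C pr := fun x hx => mem_draw.2 ⟨x, hx, rfl⟩
    exact h _ (m u hu) _ (m v hv) _ (m w hw) _ (m z hz) (nv.crossAt hu hv).1 (nw.crossAt hu hw).1
      (nz.crossAt hu hz).1 _ _ _ (par_lt (lt34 hu) nv nw hkl) (par_lt (lt34 hu) nw nz hln)
      (nv.crossAt hu hv).2 (nw.crossAt hu hw).2 (nz.crossAt hu hz).2
  · intro h e he f hf g hg k hk hfe hge hke t s r hts hsr c1 c2 c3
    obtain ⟨u, hu, rfl⟩ := mem_draw.1 he
    obtain ⟨v, hv, rfl⟩ := mem_draw.1 hf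
    obtain ⟨w, hw, rfl⟩ := mem_draw.1 hg
    obtain ⟨z, hz, rfl⟩ := mem_draw.1 hk
    obtain ⟨⟨a, ha⟩, rfl⟩ := (cross_iff (lt34 hu) (lt34 hv) (fun h => hfe (by rw [h])) t).1 c1
    obtain ⟨⟨b, hb⟩, rfl⟩ := (cross_iff (lt34 hu) (lt34 hw) (fun h => hge (by rw [h])) s).1 c2
    obtain ⟨⟨c, hc⟩, rfl⟩ := (cross_iff (lt34 hu) (lt34 hz) (fun h => hke (by rw [h])) r).1 c3
    exact h u v w z a b c hu hv hw hz ha hb hc (nb_lt_of_par (lt34 hu) ha hb hts)
      (nb_lt_of_par (lt34 hu) hb hc hsr)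

/-- From a weaving casing with at most one switch per edge to the combinatorial data. -/
theorem of_weaving {R C : ℕ} {pr : U → Bool} (hV : Valid (draw R C pr))
    (h : Weaving (draw R C pr) 1) : ∃ tp : U → U → Bool, UAlt (· ∈ units R C pr) tp ∧
      ∀ u v k, u ∈ units R C pr → v ∈ units R C pr → Nb u v k → tp v u = !tp u v := by
  obtain ⟨top, hc, hs⟩ := h
  refine ⟨fun u v => top (seg u) (seg v),
    (noAlt_iff top).1 fun e he => hV.noAlt_of_le he (hs e he), fun u v k hu hv hn => ?_⟩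
  have := hc _ (mem_draw.2 ⟨u, hu, rfl⟩) _ (mem_draw.2 ⟨v, hv, rfl⟩) (hn.crossAt hu hv).1.symm
    ⟨_, (hn.crossAt hu hv).2⟩
  show top (seg v) (seg u) = !top (seg u) (seg v)
  revert this
  cases top (seg u) (seg v) <;> cases top (seg v) (seg u) <;> simp

/-- From a height function on units to a stacking. -/
theorem stacking_of_units {R C : ℕ} {pr : U → Bool} (hV : Valid (draw R C pr)) (H : U → ℕ)
    (h1 : ∀ u v k, u ∈ units R C pr → v ∈ units R C pr → Nb u v k → H u ≠ H v)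
    (h2 : UAlt (· ∈ units R C pr) fun u v => decide (H v < H u)) : Stacking (draw R C pr) 1 := by
  classical
  let G : Seg → ℕ := fun e => if h : ∃ u ∈ units R C pr, seg u = e then H h.choose else 0
  have hG : ∀ u ∈ units R C pr, G (seg u) = H u := by
    intro u hu
    have h : ∃ v ∈ units R C pr, seg v = seg u := ⟨u, hu, rfl⟩
    simp only [G, dif_pos h]
    rw [seg_inj (lt34 h.choose_spec.1) (lt34 hu) h.choose_spec.2]
  refine hV.stacking_of_height G ?_ ((noAlt_iff _).2 ?_)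
  · intro e he f hf hfe t hc
    obtain ⟨u, hu, rfl⟩ := mem_draw.1 he
    obtain ⟨v, hv, rfl⟩ := mem_draw.1 hf
    obtain ⟨⟨a, ha⟩, -⟩ := (cross_iff (lt34 hu) (lt34 hv) (fun h => hfe (by rw [h])) t).1 hc
    rw [hG u hu, hG v hv]
    exact h1 u v a hu hv ha
  · intro u v w z k l n hu hv hw hz nv nw nz hkl hln
    simp only [hG u hu, hG v hv, hG w hw, hG z hz]
    exact h2 u v w z k l n hu hv hw hz nv nw nz hkl hln

end Pool.Agent.Lib.MP_b4992a_lc
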