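import Mathlib
import Pool.Agent.Lib.MP_b4992a_lc.Valid

/-! A weaving casing with at most one switch per edge gives a satisfying assignment. -/

set_option autoImplicit false

namespace Pool.Agent.Lib.MP_b4992a_lc

open Pool.Agent.Shared.NP

/-- No alternation in a sequence of four types. -/
def NA4 (a b c d : Bool) : Prop :=
  (a = b ∨ b = c) ∧ (a = b ∨ b = d) ∧ (a = c ∨ c = d) ∧ (b = c ∨ c = d)

instance decNA4 (a b c d : Bool) : Decidable (NA4 a b c d) := by unfold NA4; infer_instance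

theorem five_lines : ∀ a12 a1s a13 a14 a2s a23 a24 as3 as4 a34 : Bool,
    NA4 a12 a1s a13 a14 → NA4 (!a12) a2s a23 a24 → NA4 (!a1s) (!a2s) as3 as4 →
    NA4 (!a13) (!a23) (!as3) a34 → NA4 (!a14) (!a24) (!as4) (!a34) →
    (!a1s) ≠ as4 ∨ (!a2s) ≠ as4 ∨ as3 ≠ as4 := by
  decide +kernel

theorem nb0 {i j a b k : ℕ} (h : (cl a)[k]? = some (b, 1, 1)) : Nb (i, j, a) (i, j, b) k :=
  ⟨1, 1, h, rfl, rfl⟩

section

variable {S : U → Prop} {tp : U → U → Bool} (hA : UAlt S tp)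
  (anti : ∀ u v k, S u → S v → Nb u v k → tp v u = !tp u v)

include hA in
theorem na4 {u v0 v1 v2 v3 : U} (hu : S u) (h0 : S v0) (h1 : S v1) (h2 : S v2) (h3 : S v3)
    (n0 : Nb u v0 0) (n1 : Nb u v1 1) (n2 : Nb u v2 2) (n3 : Nb u v3 3) :
    NA4 (tp u v0) (tp u v1) (tp u v2) (tp u v3) :=
  ⟨hA _ _ _ _ _ _ _ hu h0 h1 h2 n0 n1 n2 (by omega) (by omega),
    hA _ _ _ _ _ _ _ hu h0 h1 h3 n0 n1 n3 (by omega) (by omega),
    hA _ _ _ _ _ _ _ hu h0 h2 h3 n0 n2 n3 (by omega) (by omega),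
    hA _ _ _ _ _ _ _ hu h1 h2 h3 n1 n2 n3 (by omega) (by omega)⟩

theorem gadget_lists : ∀ s ∈ [0, 5, 10],
    ((cl s)[0]? = some (s + 1, 1, 1) ∧ (cl s)[1]? = some (s + 2, 1, 1) ∧
      (cl s)[2]? = some (s + 3, 1, 1) ∧ (cl s)[3]? = some (s + 4, 1, 1)) ∧
    ((cl (s + 1))[0]? = some (s + 2, 1, 1) ∧ (cl (s + 1))[1]? = some (s, 1, 1) ∧
      (cl (s + 1))[2]? = some (s + 3, 1, 1) ∧ (cl (s + 1))[3]? = some (s + 4, 1, 1)) ∧
    ((cl (s + 2))[0]? = some (s + 1, 1, 1) ∧ (cl (s + 2))[1]? = some (s, 1, 1) ∧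
      (cl (s + 2))[2]? = some (s + 3, 1, 1) ∧ (cl (s + 2))[3]? = some (s + 4, 1, 1)) ∧
    ((cl (s + 3))[0]? = some (s + 1, 1, 1) ∧ (cl (s + 3))[1]? = some (s + 2, 1, 1) ∧
      (cl (s + 3))[2]? = some (s, 1, 1) ∧ (cl (s + 3))[3]? = some (s + 4, 1, 1)) ∧
    ((cl (s + 4))[0]? = some (s + 1, 1, 1) ∧ (cl (s + 4))[1]? = some (s + 2, 1, 1) ∧
      (cl (s + 4))[2]? = some (s, 1, 1) ∧ (cl (s + 4))[3]? = some (s + 3, 1, 1)) := by
  intro s hs
  simp only [List.mem_cons, List.not_mem_nil, or_false] at hs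
  rcases hs with rfl | rfl | rfl <;>
    exact ⟨⟨rfl, rfl, rfl, rfl⟩, ⟨rfl, rfl, rfl, rfl⟩, ⟨rfl, rfl, rfl, rfl⟩, ⟨rfl, rfl, rfl, rfl⟩,
      rfl, rfl, rfl, rfl⟩

include hA anti in
/-- After its gadget a rigid segment has crossings of one type only. -/
theorem rigid {i j s : ℕ} (hs : s ∈ [0, 5, 10]) (hc : ∀ a < 30, S (i, j, a)) {v : U} (hv : S v)
    {k : ℕ} (hk : 4 ≤ k) (hn : Nb (i, j, s) v k) :
    tp (i, j, s) v = tp (i, j, s) (i, j, s + 4) := by
  have hs' : s ≤ 10 := by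
    simp only [List.mem_cons, List.not_mem_nil, or_false] at hs
    omega
  obtain ⟨⟨p0, p1, p2, p3⟩, ⟨q0, q1, q2, q3⟩, ⟨r0, r1, r2, r3⟩, ⟨t0, t1, t2, t3⟩,
    z0, z1, z2, z3⟩ := gadget_lists s hs
  have m0 := hc s (by omega)
  have m1 := hc (s + 1) (by omega)
  have m2 := hc (s + 2) (by omega)
  have m3 := hc (s + 3) (by omega)
  have m4 := hc (s + 4) (by omega)
  have l0 := na4 hA m0 m1 m2 m3 m4 (nb0 p0) (nb0 p1) (nb0 p2) (nb0 p3)
  have l1 := na4 hA m1 m2 m0 m3 m4 (nb0 q0) (nb0 q1) (nb0 q2) (nb0 q3)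
  have l2 := na4 hA m2 m1 m0 m3 m4 (nb0 r0) (nb0 r1) (nb0 r2) (nb0 r3)
  have l3 := na4 hA m3 m1 m2 m0 m4 (nb0 t0) (nb0 t1) (nb0 t2) (nb0 t3)
  have l4 := na4 hA m4 m1 m2 m0 m3 (nb0 z0) (nb0 z1) (nb0 z2) (nb0 z3)
  have e1 := anti _ _ _ m1 m0 (nb0 q1)
  have e2 := anti _ _ _ m2 m0 (nb0 r1)
  rw [e1, e2] at l0
  rw [anti _ _ _ m1 m2 (nb0 q0)] at l2
  rw [anti _ _ _ m1 m3 (nb0 q2), anti _ _ _ m2 m3 (nb0 r2), anti _ _ _ m0 m3 (nb0 p2)] at l3
  rw [anti _ _ _ m1 m4 (nb0 q3), anti _ _ _ m2 m4 (nb0 r3), anti _ _ _ m0 m4 (nb0 p3),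
    anti _ _ _ m3 m4 (nb0 t3)] at l4
  rcases five_lines _ _ _ _ _ _ _ _ _ _ l1 l2 l0 l3 l4 with h | h | h
  · rw [← e1] at h
    exact ((hA _ _ _ _ _ _ _ m0 m1 m4 hv (nb0 p0) (nb0 p3) hn (by omega) (by omega)).resolve_left
      h).symm
  · rw [← e2] at h
    exact ((hA _ _ _ _ _ _ _ m0 m2 m4 hv (nb0 p1) (nb0 p3) hn (by omega) (by omega)).resolve_left
      h).symm
  · exact ((hA _ _ _ _ _ _ _ m0 m3 m4 hv (nb0 p2) (nb0 p3) hn (by omega) (by omega)).resolve_left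
      h).symm

include hA anti in
theorem rigid' {i j s : ℕ} (hs : s ∈ [0, 5, 10]) (hc : ∀ a < 30, S (i, j, a)) {v : U} (hv : S v)
    {k : ℕ} (hk : 4 ≤ k) (hn : Nb (i, j, s) v k) :
    tp v (i, j, s) = !tp (i, j, s) (i, j, s + 4) := by
  have hs' : s ≤ 10 := by
    simp only [List.mem_cons, List.not_mem_nil, or_false] at hs
    omega
  rw [anti _ _ _ (hc s (by omega)) hv hn, rigid hA anti hs hc hv hk hn]

include hA anti in
theorem valQ {i j : ℕ} (hc : ∀ a < 30, S (i, j, a)) :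
    tp (i, j, 10) (i, j, 14) = !tp (i, j, 5) (i, j, 9) := by
  rw [← rigid hA anti (s := 10) (by simp) hc (hc 5 (by omega)) (k := 8) (by omega) (nb0 rfl),
    rigid' hA anti (s := 5) (by simp) hc (hc 10 (by omega)) (k := 8) (by omega) (nb0 rfl)]

include hA anti in
theorem valP_succ {i j : ℕ} (hc : ∀ a < 30, S (i, j, a)) (hc' : ∀ a < 30, S (i, j + 1, a)) :
    tp (i, j + 1, 5) (i, j + 1, 9) = tp (i, j, 5) (i, j, 9) := by
  have h1 := valQ hA anti hc'
  rw [← rigid hA anti (s := 10) (by simp) hc' (hc 5 (by omega)) (k := 5) (by omega)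
      ⟨1, 0, rfl, rfl, rfl⟩,
    rigid' hA anti (s := 5) (by simp) hc (hc' 10 (by omega)) (k := 4) (by omega)
      ⟨1, 2, rfl, rfl, rfl⟩] at h1
  exact (Bool.not_inj h1).symm

include hA anti in
theorem conF1 {i j : ℕ} (hc : ∀ a < 30, S (i, j, a)) (hc' : ∀ a < 30, S (i + 1, j, a))
    (hf : S (i, j, 30)) : tp (i, j, 0) (i, j, 4) = tp (i, j, 5) (i, j, 9) ∨
      tp (i, j, 5) (i, j, 9) = tp (i + 1, j, 0) (i + 1, j, 4) := by
  have h := hA _ _ _ _ 0 1 2 hf (hc 0 (by omega)) (hc 5 (by omega)) (hc' 0 (by omega)) (nb0 rfl)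
    (nb0 rfl) ⟨2, 1, rfl, rfl, rfl⟩ (by omega) (by omega)
  rw [rigid' hA anti (s := 0) (by simp) hc hf (k := 7) (by omega) (nb0 rfl),
    rigid' hA anti (s := 5) (by simp) hc hf (k := 6) (by omega) (nb0 rfl),
    rigid' hA anti (s := 0) (by simp) hc' hf (k := 11) (by omega) ⟨0, 1, rfl, rfl, rfl⟩] at h
  exact h.imp Bool.not_inj Bool.not_inj

include hA anti in
theorem conF2 {i j : ℕ} (hc : ∀ a < 30, S (i, j, a)) (hc' : ∀ a < 30, S (i + 1, j, a))
    (hf : S (i, j, 31)) : tp (i, j, 0) (i, j, 4) = (!tp (i, j, 5) (i, j, 9)) ∨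
      (!tp (i, j, 5) (i, j, 9)) = tp (i + 1, j, 0) (i + 1, j, 4) := by
  have h := hA _ _ _ _ 0 1 2 hf (hc 0 (by omega)) (hc 10 (by omega)) (hc' 0 (by omega)) (nb0 rfl)
    (nb0 rfl) ⟨2, 1, rfl, rfl, rfl⟩ (by omega) (by omega)
  rw [rigid' hA anti (s := 0) (by simp) hc hf (k := 4) (by omega) (nb0 rfl),
    rigid' hA anti (s := 10) (by simp) hc hf (k := 6) (by omega) (nb0 rfl),
    rigid' hA anti (s := 0) (by simp) hc' hf (k := 8) (by omega) ⟨0, 1, rfl, rfl, rfl⟩,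
    valQ hA anti hc] at h
  exact h.imp Bool.not_inj Bool.not_inj

include hA anti in
theorem conE1 {i j : ℕ} (hc : ∀ a < 30, S (i, j, a)) (hf : S (i, j, 32)) :
    tp (i, j, 0) (i, j, 4) = tp (i, j, 5) (i, j, 9) := by
  have h := hA _ _ _ _ 0 1 2 hf (hc 0 (by omega)) (hc 5 (by omega)) (hc 10 (by omega)) (nb0 rfl)
    (nb0 rfl) (nb0 rfl) (by omega) (by omega)
  rw [rigid' hA anti (s := 0) (by simp) hc hf (k := 6) (by omega) (nb0 rfl),
    rigid' hA anti (s := 5) (by simp) hc hf (k := 7) (by omega) (nb0 rfl),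
    rigid' hA anti (s := 10) (by simp) hc hf (k := 9) (by omega) (nb0 rfl),
    valQ hA anti hc] at h
  revert h
  cases tp (i, j, 0) (i, j, 4) <;> cases tp (i, j, 5) (i, j, 9) <;> simp

include hA anti in
theorem conE1' {i j : ℕ} (hc : ∀ a < 30, S (i, j, a)) (hc' : ∀ a < 30, S (i + 1, j, a))
    (hf : S (i, j, 32)) : tp (i + 1, j, 0) (i + 1, j, 4) = !tp (i, j, 5) (i, j, 9) := by
  have h := hA _ _ _ _ 1 2 3 hf (hc 5 (by omega)) (hc 10 (by omega)) (hc' 0 (by omega)) (nb0 rfl)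
    (nb0 rfl) ⟨2, 1, rfl, rfl, rfl⟩ (by omega) (by omega)
  rw [rigid' hA anti (s := 0) (by simp) hc' hf (k := 10) (by omega) ⟨0, 1, rfl, rfl, rfl⟩,
    rigid' hA anti (s := 5) (by simp) hc hf (k := 7) (by omega) (nb0 rfl),
    rigid' hA anti (s := 10) (by simp) hc hf (k := 9) (by omega) (nb0 rfl),
    valQ hA anti hc] at h
  revert h
  cases tp (i + 1, j, 0) (i + 1, j, 4) <;> cases tp (i, j, 5) (i, j, 9) <;> simp

include hA anti in
theorem conE2 {i j : ℕ} (hc : ∀ a < 30, S (i, j, a)) (hf : S (i, j, 33)) :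
    tp (i, j, 0) (i, j, 4) = !tp (i, j, 5) (i, j, 9) := by
  have h := hA _ _ _ _ 0 1 2 hf (hc 0 (by omega)) (hc 10 (by omega)) (hc 5 (by omega)) (nb0 rfl)
    (nb0 rfl) (nb0 rfl) (by omega) (by omega)
  rw [rigid' hA anti (s := 0) (by simp) hc hf (k := 5) (by omega) (nb0 rfl),
    rigid' hA anti (s := 5) (by simp) hc hf (k := 9) (by omega) (nb0 rfl),
    rigid' hA anti (s := 10) (by simp) hc hf (k := 7) (by omega) (nb0 rfl),
    valQ hA anti hc] at h
  revert h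
  cases tp (i, j, 0) (i, j, 4) <;> cases tp (i, j, 5) (i, j, 9) <;> simp

end

/-- Parity of the row. -/
def od (i : ℕ) : Bool := decide (i % 2 = 1)

theorem od_succ (i : ℕ) : od (i + 1) = !od i := by
  simp only [od]
  rcases Nat.mod_two_eq_zero_or_one i with h | h <;> simp [Nat.add_mod, h]

theorem exists_change (y : ℕ → Bool) (t : Bool) (n : ℕ) (h0 : y 1 = t) (hn : y (n + 1) = !t) :
    ∃ i < n, y (i + 1) = t ∧ y (i + 2) = !t := by
  induction n with
  | zero => rw [h0] at hn; cases t <;> simp at hn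
  | succ n ih =>
    by_cases h : y (n + 1) = t
    · exact ⟨n, by omega, h, hn⟩
    · obtain ⟨i, hi, h1⟩ := ih (by revert h; cases y (n + 1) <;> cases t <;> simp)
      exact ⟨i, by omega, h1⟩

theorem pres_lt (φ : CNF3) (u : U) (h : u.2.2 < 30) : pres φ u = true := by
  simp [pres, Nat.blt_eq, h]

theorem red_valid (φ : CNF3) : Valid (red φ) :=
  draw_valid _ _ (by omega) (by omega) _ (pres_lt φ)

theorem hasLit_sat {c : Cl3} {b : Bool} {v : ℕ} (h : hasLit c b v = true) {asg : ℕ → Bool}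
    (ha : asg v = b) : asg c.1.2 = c.1.1 ∨ asg c.2.1.2 = c.2.1.1 ∨ asg c.2.2.2 = c.2.2.1 := by
  simp only [hasLit, Bool.or_eq_true, Bool.and_eq_true, beq_iff_eq] at h
  rcases h with (⟨h1, h2⟩ | ⟨h1, h2⟩) | ⟨h1, h2⟩ <;> simp [h1, h2, ha]

theorem sound (φ : CNF3) (h : Weaving (red φ) 1) : Sat3 φ := by
  obtain ⟨tp, hA, anti⟩ := of_weaving (red_valid φ) h
  have hc : ∀ i < nv φ + 2, ∀ j < φ.length + 1, ∀ a < 30,
      (i, j, a) ∈ units (nv φ + 2) (φ.length + 1) (pres φ) := fun i hi j hj a ha =>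
    mem_units.2 ⟨hi, hj, by simp only; omega, pres_lt φ _ ha⟩
  have hp : ∀ i < nv φ + 2, ∀ j < φ.length + 1, tp (i, j, 5) (i, j, 9) = tp (i, 0, 5) (i, 0, 9) := by
    intro i hi j
    induction j with
    | zero => intro _; rfl
    | succ j ih =>
      intro hj
      rw [valP_succ hA anti (hc i hi j (by omega)) (hc i hi (j + 1) hj), ih (by omega)]
  let X : ℕ → Bool := fun i => xor (tp (i, 0, 5) (i, 0, 9)) (od i)
  let y : ℕ → ℕ → Bool := fun j i => xor (tp (i, j, 0) (i, j, 4)) (od i)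
  have h1 : ∀ j < φ.length + 1, y j 1 = X 0 := by
    intro j hj
    have := conE1' hA anti (hc 0 (by omega) j hj) (hc 1 (by omega) j hj)
      (mem_units.2 ⟨by simp, hj, by simp, by simp [pres]⟩)
    simp only [y, X, zero_add] at this ⊢
    rw [this, hp 0 (by omega) j hj]
    simp [od]
  have f1 : ∀ j < φ.length + 1, ∀ i < nv φ, inCl φ j true i = false →
      y j (i + 1) = X (i + 1) ∨ y j (i + 2) = !X (i + 1) := by
    intro j hj i hi hin
    have := conF1 hA anti (hc (i + 1) (by omega) j hj) (hc (i + 2) (by omega) j hj)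
      (mem_units.2 ⟨by simp only; omega, hj, by simp, by
        simp [pres, hin, Nat.blt_eq, Nat.ble_eq]; omega⟩)
    rw [hp (i + 1) (by omega) j hj] at this
    simp only [y, X, od_succ (i + 1)]
    rcases this with h | h
    · left; rw [h]
    · right; rw [h]; simp
  have f2 : ∀ j < φ.length + 1, ∀ i < nv φ, inCl φ j false i = false →
      y j (i + 1) = (!X (i + 1)) ∨ y j (i + 2) = X (i + 1) := by
    intro j hj i hi hin
    have := conF2 hA anti (hc (i + 1) (by omega) j hj) (hc (i + 2) (by omega) j hj)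
      (mem_units.2 ⟨by simp only; omega, hj, by simp, by
        simp [pres, hin, Nat.blt_eq, Nat.ble_eq]; omega⟩)
    rw [hp (i + 1) (by omega) j hj] at this
    simp only [y, X, od_succ (i + 1)]
    rcases this with h | h
    · left; rw [h]; simp
    · right; rw [← h]; simp
  have hlast : X (nv φ + 1) = X 0 := by
    have e := conE1 hA anti (hc (nv φ + 1) (by omega) 0 (by omega))
      (mem_units.2 ⟨by simp, by simp, by simp, by simp [pres]⟩)
    have e' : y 0 (nv φ + 1) = X (nv φ + 1) := by simp only [y, X, e]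
    by_contra hne
    obtain ⟨i, hi, a1, a2⟩ := exists_change (y 0) (X 0) (nv φ) (h1 0 (by omega))
      (by rw [e']; revert hne; cases X (nv φ + 1) <;> cases X 0 <;> simp)
    have b1 := f1 0 (by omega) i hi (by simp [inCl])
    have b2 := f2 0 (by omega) i hi (by simp [inCl])
    rw [a1, a2] at b1 b2
    revert b1 b2
    cases X (i + 1) <;> cases X 0 <;> simp
  refine ⟨fun v => xor (X (v + 1)) (X 0), fun c hcφ => ?_⟩
  obtain ⟨n, hn, rfl⟩ := List.getElem_of_mem hcφ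
  have e := conE2 hA anti (hc (nv φ + 1) (by omega) (n + 1) (by omega))
    (mem_units.2 ⟨by simp, by simp only; omega, by simp, by simp [pres, Nat.blt_eq]⟩)
  rw [hp _ (by omega) _ (by omega)] at e
  have e' : y (n + 1) (nv φ + 1) = !X 0 := by
    rw [← hlast]
    simp only [y, X, e]
    simp
  obtain ⟨i, hi, a1, a2⟩ := exists_change (y (n + 1)) (X 0) (nv φ) (h1 _ (by omega)) e'
  have hin : ∀ b, inCl φ (n + 1) b i = hasLit φ[n] b i := by
    intro b
    simp [inCl, Nat.blt_eq, hn]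
  have b1 := f1 (n + 1) (by omega) i hi
  have b2 := f2 (n + 1) (by omega) i hi
  rw [a1, a2, hin] at b1 b2
  by_cases hx : X (i + 1) = X 0
  · refine hasLit_sat (asg := fun v => xor (X (v + 1)) (X 0)) (b := false) (v := i) ?_
      (by simp [hx])
    by_contra hl
    have := b2 (by simpa using hl)
    rw [hx] at this
    revert this
    cases X 0 <;> simp
  · refine hasLit_sat (asg := fun v => xor (X (v + 1)) (X 0)) (b := true) (v := i) ?_
      (by simpa using hx)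
    by_contra hl
    have := b1 (by simpa using hl)
    revert this hx
    cases X (i + 1) <;> cases X 0 <;> simp

end Pool.Agent.Lib.MP_b4992a_lc
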