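import Mathlib
import Pool.Agent.Lib.MP_b4992a_lc.Sound

/-! A satisfying assignment gives a stacking casing with at most one switch per edge. -/

set_option autoImplicit false

namespace Pool.Agent.Lib.MP_b4992a_lc

open Pool.Agent.Shared.NP

/-- The height of type `a` when its rigid segment has the value `b`. -/
def hgt (a : ℕ) (b : Bool) : ℕ :=
  if a < 15 then
    (bif b then 22 - [2, 0, 1, 3, 4].getD (a % 5) 0 else 1 + [2, 0, 1, 3, 4].getD (a % 5) 0)
  else 10

/-- The value that governs an entry of a crossing list. -/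
def lbit (w w' p : Bool) (e : ℕ × ℕ × ℕ) : Bool :=
  if e.1 < 5 then (if e.2.1 = 1 then w else w') else if e.1 < 10 then p else !p

/-- The constraint of an optional segment. -/
def okB (a : ℕ) (w w' p : Bool) : Bool :=
  if a = 30 then (w == p || p == w') else if a = 31 then (w == !p || (!p) == w')
  else if a = 32 then (w == p && w' == !p) else if a = 33 then (w == !p && w' == p) else true

/-- The types along a segment of type `a`. -/
def tyL (a : ℕ) (w w' p : Bool) : List Bool :=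
  (cl a).map fun e => decide (hgt e.1 (lbit w w' p e) < hgt a (lbit w w' p (a, 1, 1)))

theorem cl_shape : ∀ a < 34, (cl a).length ≤ 12 ∧ ∀ e ∈ cl a,
    (e.1 < 5 → e.2.2 = 1 ∧ (e.2.1 = 1 ∨ e.2.1 = 2)) ∧ (5 ≤ e.1 → e.1 < 15 → e.2.1 = 1) := by
  decide +kernel

theorem hgt_ne : ∀ a < 34, ∀ w w' p : Bool, ∀ e ∈ cl a,
    hgt a (lbit w w' p (a, 1, 1)) ≠ hgt e.1 (lbit w w' p e) := by
  decide +kernel

set_option synthInstance.maxSize 2048 in
theorem ty_ok : ∀ a < 34, ∀ w w' p : Bool, okB a w w' p = true → ∀ n < 12, ∀ l < n, ∀ k < l,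
    (tyL a w w' p)[k]? = (tyL a w w' p)[l]? ∨ (tyL a w w' p)[l]? = (tyL a w w' p)[n]? ∨
      (tyL a w w' p)[n]? = none := by
  decide +kernel

/-- The height of a unit. -/
def HU (w : ℕ → ℕ → Bool) (p : ℕ → Bool) (u : U) : ℕ :=
  hgt u.2.2 (lbit (w u.1 u.2.1) (w (u.1 + 1) u.2.1) (p u.1) (u.2.2, 1, 1))

theorem HU_nb (w : ℕ → ℕ → Bool) (p : ℕ → Bool) {u v : U} {k : ℕ} (hu : u.2.2 < 34)
    (h : Nb u v k) : ∃ e, (cl u.2.2)[k]? = some e ∧
      HU w p v = hgt e.1 (lbit (w u.1 u.2.1) (w (u.1 + 1) u.2.1) (p u.1) e) := by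
  obtain ⟨x, y, h1, h2, h3⟩ := h
  refine ⟨_, h1, ?_⟩
  obtain ⟨s1, s2⟩ := (cl_shape _ hu).2 _ (List.mem_of_getElem? h1)
  simp only at s1 s2
  simp only [HU]
  by_cases c5 : v.2.2 < 5
  · obtain ⟨rfl, hx⟩ := s1 c5
    have ej : v.2.1 = u.2.1 := by omega
    rcases hx with rfl | rfl
    · have ei : v.1 = u.1 := by omega
      simp [lbit, c5, ei, ej]
    · have ei : v.1 = u.1 + 1 := by omega
      simp [lbit, c5, ei, ej]
  · by_cases c15 : v.2.2 < 15
    · have hx := s2 (by omega) c15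
      have ei : v.1 = u.1 := by omega
      simp [lbit, c5, ei]
    · simp [hgt, c15]

theorem stacking_of_ok {R C : ℕ} {pr : U → Bool} (hV : Valid (draw R C pr))
    (w : ℕ → ℕ → Bool) (p : ℕ → Bool)
    (hok : ∀ u ∈ units R C pr, okB u.2.2 (w u.1 u.2.1) (w (u.1 + 1) u.2.1) (p u.1) = true) :
    Stacking (draw R C pr) 1 := by
  refine stacking_of_units hV (HU w p) ?_ ?_
  · intro u v k hu _ hn
    obtain ⟨e, h1, h2⟩ := HU_nb w p (lt34 hu) hn
    rw [h2]
    exact hgt_ne _ (lt34 hu) _ _ _ e (List.mem_of_getElem? h1)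
  · intro u v v' z k l n hu _ _ _ nv nw nz hkl hln
    obtain ⟨e1, a1, b1⟩ := HU_nb w p (lt34 hu) nv
    obtain ⟨e2, a2, b2⟩ := HU_nb w p (lt34 hu) nw
    obtain ⟨e3, a3, b3⟩ := HU_nb w p (lt34 hu) nz
    have hn : n < 12 := lt_of_lt_of_le (List.getElem?_eq_some_iff.1 a3).1 (cl_shape _ (lt34 hu)).1
    have := ty_ok _ (lt34 hu) _ _ _ (hok u hu) n hn l hln k hkl
    simp only [tyL, List.getElem?_map, a1, a2, a3, Option.map_some, Option.some.injEq,
      reduceCtorEq, or_false] at this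
    simp only [b1, b2, b3]
    exact this

theorem var_lt_nv {φ : CNF3} {c : Cl3} (h : c ∈ φ) : c.1.2 + c.2.1.2 + c.2.2.2 < nv φ :=
  Nat.lt_succ_of_le (List.single_le_sum (fun _ _ => Nat.zero_le _) _ (List.mem_map_of_mem h))

theorem complete (φ : CNF3) (h : Sat3 φ) : Stacking (red φ) 1 := by
  obtain ⟨asg, hs⟩ := h
  let y : ℕ → ℕ → Bool := fun j i => (List.range (i - 1)).any fun v => inCl φ j (asg v) v
  let X : ℕ → Bool := fun i => decide (0 < i ∧ i ≤ nv φ) && asg (i - 1)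
  have ys : ∀ j v, y j (v + 2) = (y j (v + 1) || inCl φ j (asg v) v) := by
    intro j v
    simp [y, List.range_succ]
  have y0 : ∀ i, y 0 i = false := by
    intro i
    simp [y, inCl]
  have yl : ∀ j < φ.length, ∀ i, nv φ ≤ i → y (j + 1) (i + 1) = true := by
    intro j hj i hi
    have hm : φ[j] ∈ φ := List.getElem_mem hj
    have hb := var_lt_nv hm
    have hin : ∀ b v, inCl φ (j + 1) b v = hasLit φ[j] b v := by
      intro b v
      simp [inCl, Nat.blt_eq, hj]
    simp only [y, hin, add_tsub_cancel_right, List.any_eq_true, List.mem_range]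
    rcases hs _ hm with h | h | h
    · exact ⟨φ[j].1.2, by omega, by simp [hasLit, h]⟩
    · exact ⟨φ[j].2.1.2, by omega, by simp [hasLit, h]⟩
    · exact ⟨φ[j].2.2.2, by omega, by simp [hasLit, h]⟩
  refine stacking_of_ok (red_valid φ) (fun i j => xor (y j i) (od i)) (fun i => xor (X i) (od i)) ?_
  rintro ⟨i, j, a⟩ hu
  obtain ⟨hi, hj, ha, hp⟩ := mem_units.1 hu
  simp only at hi hj ha ⊢
  rw [od_succ]
  by_cases h30 : a < 30
  · have c0 : a ≠ 30 := by omega
    have c1 : a ≠ 31 := by omega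
    have c2 : a ≠ 32 := by omega
    have c3 : a ≠ 33 := by omega
    simp [okB, c0, c1, c2, c3]
  have ha' : a = 30 ∨ a = 31 ∨ a = 32 ∨ a = 33 := by omega
  rcases ha' with rfl | rfl | rfl | rfl
  · simp only [pres, Nat.blt_eq, Nat.ble_eq, Bool.or_eq_true, Bool.and_eq_true, beq_iff_eq,
      Bool.not_eq_true'] at hp
    obtain ⟨⟨⟨-, c1⟩, c2⟩, c3⟩ : ((True ∧ 0 < i) ∧ i ≤ nv φ) ∧ inCl φ j true (i - 1) = false := by
      simpa using hp
    obtain ⟨v, rfl⟩ : ∃ v, i = v + 1 := ⟨i - 1, by omega⟩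
    have hX : X (v + 1) = asg v := by simp [X, c2]
    rw [ys, hX]
    simp only [add_tsub_cancel_right] at c3
    cases hv : asg v <;> cases y j (v + 1) <;> cases od (v + 1) <;> simp [okB, c3]
  · simp only [pres, Nat.blt_eq, Nat.ble_eq, Bool.or_eq_true, Bool.and_eq_true, beq_iff_eq,
      Bool.not_eq_true'] at hp
    obtain ⟨⟨⟨-, c1⟩, c2⟩, c3⟩ : ((True ∧ 0 < i) ∧ i ≤ nv φ) ∧ inCl φ j false (i - 1) = false := by
      simpa using hp
    obtain ⟨v, rfl⟩ : ∃ v, i = v + 1 := ⟨i - 1, by omega⟩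
    have hX : X (v + 1) = asg v := by simp [X, c2]
    rw [ys, hX]
    simp only [add_tsub_cancel_right] at c3
    cases hv : asg v <;> cases y j (v + 1) <;> cases od (v + 1) <;> simp [okB, c3]
  · have hp' : i = 0 ∨ (i = nv φ + 1 ∧ j = 0) := by simpa [pres, Nat.blt_eq] using hp
    rcases hp' with rfl | ⟨rfl, rfl⟩
    · simp [okB, y, X]
    · simp [okB, y0, X]
  · have hp' : i = nv φ + 1 ∧ 0 < j := by simpa [pres, Nat.blt_eq] using hp
    obtain ⟨rfl, hj0⟩ := hp'
    obtain ⟨n, rfl⟩ : ∃ n, j = n + 1 := ⟨j - 1, by omega⟩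
    rw [yl n (by omega) _ le_rfl, yl n (by omega) (nv φ + 1) (by omega)]
    simp [okB, X]

end Pool.Agent.Lib.MP_b4992a_lc
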