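import Mathlib
import Pool.Agent.Shared.NP.CookLevin
import Pool.Agent.Lib.MP_b4992a_lc.Geo

/-! The stacking problem is in NP. -/

set_option autoImplicit false

namespace Pool.Agent.Lib.MP_b4992a_lc

open Pool.Agent.Shared.NP Pool.Agent.Shared.PolyTime

/-- The integer represented by a pair of natural numbers. -/
def valP (x : ℕ × ℕ) : ℤ := (x.1 : ℤ) - x.2

/-- Product of represented integers. -/
def mulP (x y : ℕ × ℕ) : ℕ × ℕ := (x.1 * y.1 + x.2 * y.2, x.1 * y.2 + x.2 * y.1)

/-- Difference of represented integers. -/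
def subP (x y : ℕ × ℕ) : ℕ × ℕ := (x.1 + y.2, x.2 + y.1)

/-- Comparison of represented integers. -/
def ltP (x y : ℕ × ℕ) : Bool := Nat.blt (x.1 + y.2) (y.1 + x.2)

theorem val_mulP (x y : ℕ × ℕ) : valP (mulP x y) = valP x * valP y := by
  simp only [valP, mulP]; push_cast; ring

theorem val_subP (x y : ℕ × ℕ) : valP (subP x y) = valP x - valP y := by
  simp only [valP, subP]; push_cast; ring

theorem ltP_eq (x y : ℕ × ℕ) : ltP x y = decide (valP x < valP y) := by
  rw [Bool.eq_iff_iff, decide_eq_true_eq]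
  simp only [ltP, valP, Nat.blt_eq]
  omega

section pf

variable {α : Type} [Enc α]

@[fun_prop] theorem PF_mulP {f g : α → ℕ × ℕ} (hf : PF f) (hg : PF g) :
    PF fun a => mulP (f a) (g a) := by
  unfold mulP; fun_prop

@[fun_prop] theorem PF_subP {f g : α → ℕ × ℕ} (hf : PF f) (hg : PF g) :
    PF fun a => subP (f a) (g a) := by
  unfold subP; fun_prop

@[fun_prop] theorem PF_ltP {f g : α → ℕ × ℕ} (hf : PF f) (hg : PF g) :
    PF fun a => ltP (f a) (g a) := by
  unfold ltP; fun_prop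

end pf

/-- The determinant as a pair. -/
def ddP (e f : Seg) : ℕ × ℕ :=
  subP (mulP (e.2.1, e.1.1) (f.2.2, f.1.2)) (mulP (e.2.2, e.1.2) (f.2.1, f.1.1))

/-- The first numerator as a pair. -/
def tnP (e f : Seg) : ℕ × ℕ :=
  subP (mulP (f.1.1, e.1.1) (f.2.2, f.1.2)) (mulP (f.1.2, e.1.2) (f.2.1, f.1.1))

/-- The second numerator as a pair. -/
def snP (e f : Seg) : ℕ × ℕ :=
  subP (mulP (f.1.1, e.1.1) (e.2.2, e.1.2)) (mulP (f.1.2, e.1.2) (e.2.1, e.1.1))

theorem val_ddP (e f : Seg) : valP (ddP e f) = dd (toZ e) (toZ f) := by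
  rw [ddP, val_subP, val_mulP, val_mulP]; rfl

theorem val_tnP (e f : Seg) : valP (tnP e f) = tn (toZ e) (toZ f) := by
  rw [tnP, val_subP, val_mulP, val_mulP]; rfl

theorem val_snP (e f : Seg) : valP (snP e f) = sn (toZ e) (toZ f) := by
  rw [snP, val_subP, val_mulP, val_mulP]; rfl

/-- The crossing test on natural numbers. -/
def crN (e f : Seg) : Bool :=
  ltP (0, 0) (mulP (tnP e f) (ddP e f)) && ltP (mulP (tnP e f) (ddP e f)) (mulP (ddP e f) (ddP e f)) &&
    ltP (0, 0) (mulP (snP e f) (ddP e f)) &&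
    ltP (mulP (snP e f) (ddP e f)) (mulP (ddP e f) (ddP e f))

/-- The order test on natural numbers. -/
def ltN (e f g : Seg) : Bool :=
  ltP (mulP (mulP (tnP e f) (ddP e f)) (mulP (ddP e g) (ddP e g)))
    (mulP (mulP (tnP e g) (ddP e g)) (mulP (ddP e f) (ddP e f)))

theorem crN_eq (e f : Seg) : crN e f = crossB (toZ e) (toZ f) := by
  have h0 : valP (0, 0) = 0 := rfl
  simp only [crN, crossB, ltP_eq, val_mulP, val_ddP, val_tnP, val_snP, h0]

theorem ltN_eq (e f g : Seg) : ltN e f g = ltB (toZ e) (toZ f) (toZ g) := by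
  simp only [ltN, ltB, ltP_eq, val_mulP, val_ddP, val_tnP]

/-- Equality test for segments. -/
def segEq (e f : Seg) : Bool :=
  e.1.1 == f.1.1 && e.1.2 == f.1.2 && e.2.1 == f.2.1 && e.2.2 == f.2.2

theorem segEq_iff {e f : Seg} : segEq e f = true ↔ e = f := by
  simp [segEq, Prod.ext_iff, and_assoc]

section pf2

variable {α : Type} [Enc α]

@[fun_prop] theorem PF_ddP {f g : α → Seg} (hf : PF f) (hg : PF g) :
    PF fun a => ddP (f a) (g a) := by
  unfold ddP; fun_prop

@[fun_prop] theorem PF_tnP {f g : α → Seg} (hf : PF f) (hg : PF g) :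
    PF fun a => tnP (f a) (g a) := by
  unfold tnP; fun_prop

@[fun_prop] theorem PF_snP {f g : α → Seg} (hf : PF f) (hg : PF g) :
    PF fun a => snP (f a) (g a) := by
  unfold snP; fun_prop

@[fun_prop] theorem PF_crN {f g : α → Seg} (hf : PF f) (hg : PF g) :
    PF fun a => crN (f a) (g a) := by
  unfold crN; fun_prop

@[fun_prop] theorem PF_ltN {f g k : α → Seg} (hf : PF f) (hg : PF g) (hk : PF k) :
    PF fun a => ltN (f a) (g a) (k a) := by
  unfold ltN; fun_prop

@[fun_prop] theorem PF_segEq {f g : α → Seg} (hf : PF f) (hg : PF g) :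
    PF fun a => segEq (f a) (g a) := by
  unfold segEq; fun_prop

end pf2

theorem Valid.dd_ne {D : List Seg} (hD : Valid D) {e f : Seg} (he : e ∈ D) (hf : f ∈ D)
    (hne : e ≠ f) {t : ℝ} (h : CrossAt e f t) : dd (toZ e) (toZ f) ≠ 0 := by
  intro h0
  obtain ⟨h1, h2, s, h3, h4, h5⟩ := h
  have hd : ((e.2.1 : ℝ) - e.1.1) * ((f.2.2 : ℝ) - f.1.2) =
      ((e.2.2 : ℝ) - e.1.2) * ((f.2.1 : ℝ) - f.1.1) := by
    have : ((dd (toZ e) (toZ f) : ℤ) : ℝ) = 0 := by rw [h0]; simp
    simp only [dd, toZ] at this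
    push_cast at this
    linarith
  obtain ⟨μ, m1, m2⟩ : ∃ μ : ℝ, (e.2.1 : ℝ) - e.1.1 = μ * ((f.2.1 : ℝ) - f.1.1) ∧
      (e.2.2 : ℝ) - e.1.2 = μ * ((f.2.2 : ℝ) - f.1.2) := by
    by_cases c : (f.2.1 : ℝ) - f.1.1 = 0
    · have c' : (f.2.2 : ℝ) - f.1.2 ≠ 0 := by
        intro c'
        apply hD.noLoop f hf
        have a1 : (f.1.1 : ℝ) = f.2.1 := by linarith
        have a2 : (f.1.2 : ℝ) = f.2.2 := by linarith
        exact Prod.ext (by exact_mod_cast a1) (by exact_mod_cast a2)
      refine ⟨((e.2.2 : ℝ) - e.1.2) / ((f.2.2 : ℝ) - f.1.2), ?_, by field_simp⟩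
      rw [c, mul_zero] at hd ⊢
      exact (mul_eq_zero.1 hd).resolve_right c'
    · refine ⟨((e.2.1 : ℝ) - e.1.1) / ((f.2.1 : ℝ) - f.1.1), by field_simp, ?_⟩
      field_simp
      linarith
  have ev : ∀ᶠ ε in nhds (0 : ℝ), t + ε ∈ Set.Ioo (0 : ℝ) 1 ∧ s + ε * μ ∈ Set.Ioo (0 : ℝ) 1 := by
    have c1 : Continuous fun ε : ℝ => t + ε := by fun_prop
    have c2 : Continuous fun ε : ℝ => s + ε * μ := by fun_prop
    exact (c1.continuousAt.eventually_mem (Ioo_mem_nhds (by simpa using h1) (by simpa using h2))).and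
      (c2.continuousAt.eventually_mem (Ioo_mem_nhds (by simpa using h3) (by simpa using h4)))
  obtain ⟨ε, ⟨⟨a1, a2⟩, a3, a4⟩, a5⟩ :=
    ((ev.filter_mono (nhdsWithin_le_nhds (s := {0}ᶜ))).and self_mem_nhdsWithin).exists
  have h6 : CrossAt e f (t + ε) := by
    refine ⟨a1, a2, s + ε * μ, a3, a4, ?_⟩
    rw [pointAt_eq, pointAt_eq] at h5 ⊢
    simp only [zat, toZ, Prod.mk.injEq, Int.cast_natCast] at h5 ⊢
    exact ⟨by linear_combination h5.1 + ε * m1, by linear_combination h5.2 + ε * m2⟩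
  have := hD.once e he f hf hne t (t + ε) ⟨h1, h2, s, h3, h4, h5⟩ h6
  exact a5 (by simpa using this)

theorem Valid.crossAt_iff {D : List Seg} (hD : Valid D) {e f : Seg} (he : e ∈ D) (hf : f ∈ D)
    (hne : e ≠ f) (t : ℝ) :
    CrossAt e f t ↔ crossB (toZ e) (toZ f) = true ∧ t = tau (toZ e) (toZ f) := by
  constructor
  · intro h
    have hd := hD.dd_ne he hf hne h
    obtain ⟨h1, h2, s, h3, h4, h5⟩ := h
    rw [pointAt_eq, pointAt_eq] at h5
    refine ⟨?_, tau_unique hd h5⟩
    generalize toZ e = a at *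
    generalize toZ f = b at *
    simp only [zat, Prod.mk.injEq] at h5
    obtain ⟨hx, hy⟩ := h5
    have e1 : (tn a b : ℝ) = t * dd a b := by
      simp only [dd, tn]
      push_cast
      linear_combination -((b.2.2 : ℝ) - b.1.2) * hx + ((b.2.1 : ℝ) - b.1.1) * hy
    have e2 : (sn a b : ℝ) = s * dd a b := by
      simp only [dd, sn]
      push_cast
      linear_combination -((a.2.2 : ℝ) - a.1.2) * hx + ((a.2.1 : ℝ) - a.1.1) * hy
    have hd' : (dd a b : ℝ) ≠ 0 := by exact_mod_cast hd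
    have hp : (0 : ℝ) < (dd a b : ℝ) * dd a b := mul_self_pos.2 hd'
    have b1 : (0 : ℝ) < (tn a b : ℝ) * dd a b := by rw [e1]; nlinarith
    have b2 : (tn a b : ℝ) * dd a b < (dd a b : ℝ) * dd a b := by rw [e1]; nlinarith
    have b3 : (0 : ℝ) < (sn a b : ℝ) * dd a b := by rw [e2]; nlinarith
    have b4 : (sn a b : ℝ) * dd a b < (dd a b : ℝ) * dd a b := by rw [e2]; nlinarith
    simp only [crossB, Bool.and_eq_true, decide_eq_true_eq]
    exact ⟨⟨⟨by exact_mod_cast b1, by exact_mod_cast b2⟩, by exact_mod_cast b3⟩,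
      by exact_mod_cast b4⟩
  · rintro ⟨h, rfl⟩
    obtain ⟨h1, h2, s, h3, h4, h5⟩ := crossB_meet h
    exact ⟨h1, h2, s, h3, h4, by rw [pointAt_eq, pointAt_eq]; exact h5⟩

/-- The geometric part of the switch test. -/
def consB (D : List Seg) (e f g : Seg) : Bool :=
  !segEq f e && !segEq g e && crN e f && crN e g && ltN e f g &&
    D.all fun k => segEq k e || !(crN e k && ltN e f k && ltN e k g)

@[fun_prop] theorem PF_consB {α : Type} [Enc α] {D : α → List Seg} {e f g : α → Seg} (hD : PF D)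
    (he : PF e) (hf : PF f) (hg : PF g) : PF fun a => consB (D a) (e a) (f a) (g a) := by
  unfold consB; fun_prop

theorem Valid.isSwitch_iff {D : List Seg} (hD : Valid D) (top : Seg → Seg → Bool) {e f g : Seg}
    (he : e ∈ D) (hf : f ∈ D) (hg : g ∈ D) :
    IsSwitch D top e f g ↔ consB D e f g = true ∧ top e f ≠ top e g := by
  have hs : ∀ {a b : Seg}, segEq a b = false ↔ a ≠ b := by
    intro a b
    rw [Ne, ← segEq_iff]
    simp
  simp only [consB, Bool.and_eq_true, Bool.not_eq_true', hs, List.all_eq_true, Bool.or_eq_true,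
    segEq_iff, crN_eq, ltN_eq]
  constructor
  · rintro ⟨-, -, h1, h2, h3, t, u, h4, h5, h6, h7⟩
    obtain ⟨a1, rfl⟩ := (hD.crossAt_iff he hf h1.symm t).1 h5
    obtain ⟨a2, rfl⟩ := (hD.crossAt_iff he hg h2.symm u).1 h6
    refine ⟨⟨⟨⟨⟨⟨h1, h2⟩, a1⟩, a2⟩, (ltB_iff (crossB_dd a1) (crossB_dd a2)).2 h4⟩, ?_⟩, h3⟩
    intro k hk
    by_cases c : k = e
    · exact Or.inl c
    right
    by_contra hc
    simp only [Bool.not_eq_false, Bool.and_eq_true] at hc
    obtain ⟨⟨b1, b2⟩, b3⟩ := hc
    exact h7 k hk c _ ((hD.crossAt_iff he hk (Ne.symm c) _).2 ⟨b1, rfl⟩)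
      ⟨(ltB_iff (crossB_dd a1) (crossB_dd b1)).1 b2, (ltB_iff (crossB_dd b1) (crossB_dd a2)).1 b3⟩
  · rintro ⟨⟨⟨⟨⟨⟨h1, h2⟩, a1⟩, a2⟩, a3⟩, a4⟩, h3⟩
    refine ⟨hf, hg, h1, h2, h3, _, _, (ltB_iff (crossB_dd a1) (crossB_dd a2)).1 a3,
      (hD.crossAt_iff he hf h1.symm _).2 ⟨a1, rfl⟩, (hD.crossAt_iff he hg h2.symm _).2 ⟨a2, rfl⟩,
      ?_⟩
    rintro k hk c r hr ⟨b2, b3⟩
    obtain ⟨b1, rfl⟩ := (hD.crossAt_iff he hk (Ne.symm c) r).1 hr
    have := (a4 k hk).resolve_left c
    rw [b1, (ltB_iff (crossB_dd a1) (crossB_dd b1)).2 b2,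
      (ltB_iff (crossB_dd b1) (crossB_dd a2)).2 b3] at this
    exact absurd this (by decide)

theorem Valid.nodup {D : List Seg} (hD : Valid D) : D.Nodup :=
  hD.simple.imp fun h he => h (by rw [he])

/-- All pairs of edges. -/
def prs (D : List Seg) : List (Seg × Seg) := D.flatMap fun f => D.map fun g => (f, g)

theorem Valid.switches_eq {D : List Seg} (hD : Valid D) (top : Seg → Seg → Bool) {e : Seg}
    (he : e ∈ D) : switches D top e =
      (prs D).countP fun p => consB D e p.1 p.2 && !(top e p.1 == top e p.2) := by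
  classical
  have hn : (prs D).Nodup := hD.nodup.product hD.nodup
  rw [List.countP_eq_length_filter, ← List.toFinset_card_of_nodup (hn.filter _), switches,
    ← Set.ncard_coe_finset]
  congr 1
  ext ⟨f, g⟩
  have hm : (f, g) ∈ prs D ↔ f ∈ D ∧ g ∈ D := List.mem_product
  simp only [Set.mem_ofPred_eq, Finset.mem_coe, List.mem_toFinset, List.mem_filter, hm,
    Bool.and_eq_true, Bool.not_eq_true', beq_eq_false_iff_ne]
  constructor
  · intro h
    exact ⟨⟨h.1, h.2.1⟩, (hD.isSwitch_iff top he h.1 h.2.1).1 h⟩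
  · rintro ⟨⟨h1, h2⟩, h3⟩
    exact (hD.isSwitch_iff top he h1 h2).2 h3

/-- The position of an edge in the list. -/
def ix (D : List Seg) (e : Seg) : ℕ :=
  ((List.range D.length).filter fun i => segEq (D.getD i ((0, 0), (0, 0))) e).sum

theorem ix_eq {D : List Seg} (hD : D.Nodup) {i : ℕ} (hi : i < D.length) : ix D D[i] = i := by
  have h1 : ((List.range D.length).filter fun j => segEq (D.getD j ((0, 0), (0, 0))) D[i]) =
      (List.range D.length).filter fun j => j == i := by
    refine List.filter_congr fun j hj => ?_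
    have hj' := List.mem_range.1 hj
    rw [Bool.eq_iff_iff, segEq_iff, List.getD_eq_getElem _ _ hj', beq_iff_eq]
    exact hD.getElem_inj_iff
  rw [ix, h1, List.filter_beq, List.count_eq_one_of_mem List.nodup_range (List.mem_range.2 hi)]
  simp

/-- The rank read from the certificate. -/
def rk (D : List Seg) (y : List Bool) (e : Seg) : ℕ :=
  (List.range D.length).countP fun j => y.getD (ix D e * D.length + j) false

@[fun_prop] theorem PF_rk {α : Type} [Enc α] {D : α → List Seg} {y : α → List Bool} {e : α → Seg}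
    (hD : PF D) (hy : PF y) (he : PF e) : PF fun a => rk (D a) (y a) (e a) := by
  unfold rk ix; fun_prop

/-- The verifier. -/
def ver (d : List Seg × ℕ) (y : List Bool) : Bool :=
  (d.1.all fun e => d.1.all fun f => segEq e f || !(rk d.1 y e == rk d.1 y f)) &&
  d.1.all fun e => Nat.ble ((prs d.1).countP fun p => consB d.1 e p.1 p.2 &&
    !(Nat.blt (rk d.1 y p.1) (rk d.1 y e) == Nat.blt (rk d.1 y p.2) (rk d.1 y e))) d.2

theorem blt_eq_decide (a b : ℕ) : Nat.blt a b = decide (a < b) := by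
  rw [Bool.eq_iff_iff, Nat.blt_eq, decide_eq_true_eq]

theorem ver_iff {D : List Seg} (hD : Valid D) (K : ℕ) (y : List Bool) :
    ver (D, K) y = true ↔ (∀ e ∈ D, ∀ f ∈ D, rk D y e = rk D y f → e = f) ∧
      ∀ e ∈ D, switches D (fun a b => decide (rk D y b < rk D y a)) e ≤ K := by
  simp only [ver, Bool.and_eq_true, List.all_eq_true, Bool.or_eq_true, segEq_iff, Nat.ble_eq,
    Bool.not_eq_true', beq_eq_false_iff_ne, blt_eq_decide]
  refine and_congr ?_ (forall₂_congr fun e he => by rw [hD.switches_eq _ he])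
  refine forall₂_congr fun e _ => forall₂_congr fun f _ => ?_
  tauto

theorem countP_lt {β : Type} (p q : β → Bool) (l : List β) (h : ∀ a ∈ l, p a = true → q a = true)
    {a : β} (ha : a ∈ l) (h1 : p a = false) (h2 : q a = true) : l.countP p < l.countP q := by
  obtain ⟨s, t, rfl⟩ := List.append_of_mem ha
  have e1 : s.countP p ≤ s.countP q := List.countP_mono_left fun x hx => h x (by simp [hx])
  have e2 : t.countP p ≤ t.countP q := List.countP_mono_left fun x hx => h x (by simp [hx])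
  simp only [List.countP_append, List.countP_cons, h1, h2]
  simp
  omega

theorem exists_cert {D : List Seg} (hD : D.Nodup) (rank : Seg → ℕ) :
    ∃ y : List Bool, y.length = D.length * D.length ∧
      ∀ e ∈ D, ∀ f ∈ D, (rk D y f < rk D y e ↔ rank f < rank e) := by
  refine ⟨(List.range (D.length * D.length)).map fun m =>
    decide (rank (D.getD (m % D.length) ((0, 0), (0, 0))) <
      rank (D.getD (m / D.length) ((0, 0), (0, 0)))), by simp, ?_⟩
  set y := (List.range (D.length * D.length)).map fun m =>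
    decide (rank (D.getD (m % D.length) ((0, 0), (0, 0))) <
      rank (D.getD (m / D.length) ((0, 0), (0, 0)))) with hy
  have key : ∀ e ∈ D, rk D y e = (List.range D.length).countP fun j =>
      decide (rank (D.getD j ((0, 0), (0, 0))) < rank e) := by
    intro e he
    obtain ⟨i, hi, rfl⟩ := List.getElem_of_mem he
    rw [rk, ix_eq hD hi]
    refine List.countP_congr fun j hj => ?_
    have hj' := List.mem_range.1 hj
    have h1 : i * D.length + j < D.length * D.length := by
      have := Nat.mul_le_mul_right D.length (Nat.succ_le_of_lt hi)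
      rw [Nat.succ_mul] at this
      omega
    have h2 : (i * D.length + j) % D.length = j := by
      rw [Nat.mul_add_mod_of_lt hj']
    have h3 : (i * D.length + j) / D.length = i := by
      rw [Nat.add_comm, Nat.add_mul_div_right _ _ (by omega), Nat.div_eq_of_lt hj', Nat.zero_add]
    rw [List.getD_eq_getElem _ _ (by simpa [hy] using h1)]
    simp only [hy, List.getElem_map, List.getElem_range, h2, h3, List.getD_eq_getElem _ _ hi]
  intro e he f hf
  rw [key e he, key f hf]
  constructor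
  · intro h
    by_contra hc
    refine absurd h (not_lt.2 (List.countP_mono_left fun j _ hj => ?_))
    simp only [decide_eq_true_eq] at hj ⊢
    omega
  · intro h
    obtain ⟨i, hi, rfl⟩ := List.getElem_of_mem hf
    refine countP_lt _ _ _ (fun j _ hj => ?_) (List.mem_range.2 hi) ?_ ?_
    · simp only [decide_eq_true_eq] at hj ⊢
      omega
    · rw [List.getD_eq_getElem _ _ hi]; simp
    · rw [List.getD_eq_getElem _ _ hi]; simpa using h

theorem stacking_inNP : InNP encInst (fun p : Inst => Stacking p.1.1 p.1.2) := by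
  refine inNP_of_pf encInst _ (fun p : Inst => p.1) (fun _ => rfl) ver ?_
    (Polynomial.X * Polynomial.X) ?_
  · unfold ver prs
    fun_prop
  · rintro ⟨⟨D, K⟩, hD⟩
    dsimp only at hD ⊢
    constructor
    · rintro ⟨rank, h1, h2⟩
      obtain ⟨y, h3, h4⟩ := exists_cert hD.nodup rank
      refine ⟨y, ?_, (ver_iff hD K y).2 ⟨fun e he f hf h => h1 e he f hf ?_, fun e he => ?_⟩⟩
      · have h5 : D.length ≤ (encInst ⟨(D, K), hD⟩).length := by
          have h6 := length_le_len D
          have h7 : encInst ⟨(D, K), hD⟩ = Enc.enc (D, K) := rfl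
          rw [h7, len_prod]
          omega
        rw [h3, Polynomial.eval_mul, Polynomial.eval_X]
        exact Nat.mul_le_mul h5 h5
      · have a1 := h4 e he f hf
        have a2 := h4 f hf e he
        omega
      · refine le_of_eq_of_le ?_ (h2 e he)
        rw [hD.switches_eq _ he, hD.switches_eq _ he]
        refine List.countP_congr fun p hp => ?_
        have hm : p.1 ∈ D ∧ p.2 ∈ D := List.mem_product.1 hp
        simp only [h4 e he _ hm.1, h4 e he _ hm.2]
    · rintro ⟨y, -, h⟩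
      exact ⟨rk D y, (ver_iff hD K y).1 h⟩

end Pool.Agent.Lib.MP_b4992a_lc
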