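import Mathlib
import Pool.Agent.Shared.NP.CookLevin
import Pool.Agent.Lib.MP_b4992a_lc.Tile

/-! The reduction runs in polynomial time. -/

set_option autoImplicit false

namespace Pool.Agent.Lib.MP_b4992a_lc

open Pool.Agent.Shared.NP Pool.Agent.Shared.PolyTime

theorem PF_red : PF (fun φ : CNF3 => (red φ, (1 : ℕ))) := by
  have h1 : PF nv := by unfold nv; fun_prop
  unfold red draw units pres inCl hasLit seg shiftP base
  fun_prop

theorem encInst_eq (p : Inst) : encInst p = Enc.enc p.1 := rfl

end Pool.Agent.Lib.MP_b4992a_lc
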