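import Mathlib
import Pool.Agent.Lib.MP_b4992a_lc.Complete
import Pool.Agent.Lib.MP_b4992a_lc.Poly

/-! One reduction proves hardness for the stacking model and for the weaving model. -/

set_option autoImplicit false

namespace Pool.Agent.Lib.MP_b4992a_lc

open Pool.Agent.Shared.NP Pool.Agent.Shared.PolyTime

theorem gap (L : List Bool → Prop) (hL : InNP id L) :
    ∃ f : List Bool → Inst, PolyComputable id encInst f ∧ ∀ x : List Bool, (f x).1.2 = 1 ∧
      (L x → Stacking (f x).1.1 (f x).1.2) ∧ (¬ L x → ¬ Weaving (f x).1.1 (f x).1.2) := by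
  obtain ⟨F, hF, hs⟩ := cookLevin id L hL
  refine ⟨fun x => ⟨(red (F ⟨x⟩), 1), red_valid _⟩,
    (PF_red.comp hF).tm2 id encInst _ Raw.mk (fun _ => rfl) (fun _ => rfl), fun x => ⟨rfl, ?_, ?_⟩⟩
  · exact fun h => complete _ ((hs x).1 h)
  · exact fun h hw => h ((hs x).2 (sound _ hw))

end Pool.Agent.Lib.MP_b4992a_lc
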